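import Mathlib

set_option autoImplicit false

namespace Pool.Agent.Lib.MP_2d55ae_co

open Finset

universe u

theorem index_map_bound {G : Type*} [AddCommGroup G] (f : G →+ G) (H : AddSubgroup G) (a b : ℕ)
    (hH : H.index ≠ 0) (hHa : H.index ≤ a) (hf : f.range.index ≠ 0) (hfb : f.range.index ≤ b) :
    (H.map f).index ≠ 0 ∧ (H.map f).index ≤ a * b := by
  have h1 : (H ⊔ f.ker).index ∣ H.index := AddSubgroup.index_dvd_of_le le_sup_left
  have h2 : (H ⊔ f.ker).index ≠ 0 := fun h => hH (Nat.eq_zero_of_zero_dvd (h ▸ h1))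
  have h3 : (H ⊔ f.ker).index ≤ H.index := Nat.le_of_dvd (Nat.pos_of_ne_zero hH) h1
  rw [AddSubgroup.index_map]
  exact ⟨mul_ne_zero h2 hf, Nat.mul_le_mul (h3.trans hHa) hfb⟩

theorem index_comap_bound {G : Type*} [AddCommGroup G] (f : G →+ G) (H : AddSubgroup G) (a : ℕ)
    (hH : H.index ≠ 0) (hHa : H.index ≤ a) :
    (H.comap f).index ≠ 0 ∧ (H.comap f).index ≤ a := by
  rw [AddSubgroup.index_comap]
  have h0 : H.relIndex ⊤ ≠ 0 := by rwa [AddSubgroup.relIndex_top_right]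
  refine ⟨fun h => ?_, ?_⟩
  · exact h0 (AddSubgroup.relIndex_eq_zero_of_le_right le_top h)
  · have h1 := AddSubgroup.relIndex_le_of_le_right (le_top : f.range ≤ ⊤) h0
    rw [AddSubgroup.relIndex_top_right] at h1
    exact h1.trans hHa

/-- The descending chain of subgroups used as domains of the parameters. -/
def chainW {G : Type*} [AddCommGroup G] {d : ℕ} (S : Finset (Fin d)) (j0 : Fin d)
    (φ : Fin d → (G →+ G)) : ℕ → AddSubgroup G
  | 0 => ⊤
  | n + 1 => chainW S j0 φ n ⊓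
      ⨅ j : {j : Fin d // j ∉ S}, ((chainW S j0 φ n).map (φ j0)).comap (φ j)

theorem chainW_bound (d : ℕ) (S : Finset (Fin d)) (j0 : Fin d) (m : Fin d → ℕ) (n : ℕ) :
    ∃ b : ℕ, ∀ (G : Type u) [AddCommGroup G] (φ : Fin d → (G →+ G)),
      (∀ j, (φ j).range.index = m j ∧ m j ≠ 0) →
      (chainW S j0 φ n).index ≠ 0 ∧ (chainW S j0 φ n).index ≤ b := by
  classical
  induction n with
  | zero =>
    refine ⟨1, ?_⟩
    intro G _ φ _
    simp [chainW]
  | succ n ih =>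
    obtain ⟨b, hb⟩ := ih
    refine ⟨b * ∏ _j : {j : Fin d // j ∉ S}, (b * m j0), ?_⟩
    intro G _ φ hφ
    obtain ⟨h1, h2⟩ := hb G φ hφ
    have h3 := index_map_bound (φ j0) (chainW S j0 φ n) b (m j0) h1 h2
      (by rw [(hφ j0).1]; exact (hφ j0).2) (hφ j0).1.le
    have h4 : ∀ j : {j : Fin d // j ∉ S}, _ := fun j =>
      index_comap_bound (φ j) ((chainW S j0 φ n).map (φ j0)) (b * m j0) h3.1 h3.2
    have h5 : (⨅ j : {j : Fin d // j ∉ S},
        ((chainW S j0 φ n).map (φ j0)).comap (φ j)).index ≠ 0 :=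
      AddSubgroup.index_iInf_ne_zero (fun j => (h4 j).1)
    have h6 : (⨅ j : {j : Fin d // j ∉ S},
        ((chainW S j0 φ n).map (φ j0)).comap (φ j)).index ≤
        ∏ _j : {j : Fin d // j ∉ S}, (b * m j0) :=
      (AddSubgroup.index_iInf_le _).trans (prod_le_prod' fun j _ => (h4 j).2)
    refine ⟨AddSubgroup.index_inf_ne_zero h1 h5, ?_⟩
    exact AddSubgroup.index_inf_le.trans (Nat.mul_le_mul h2 h6)

theorem chain_exists (d r : ℕ) (S : Finset (Fin d)) (j0 : Fin d) (m : Fin d → ℕ) :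
    ∃ B : ℕ, ∀ (G : Type u) [AddCommGroup G] (φ : Fin d → (G →+ G)),
      (∀ j, (φ j).range.index = m j ∧ m j ≠ 0) →
      ∃ U : ℕ → AddSubgroup G, Monotone U ∧
        (∀ l, l < r → ∀ j, j ∉ S → ∀ y ∈ U l, ∃ t ∈ U (l + 1), φ j0 t = φ j y) ∧
        ∃ H : AddSubgroup G, H.index ≠ 0 ∧ H.index ≤ B ∧ ∀ h ∈ H, ∀ j, ∃ y ∈ U 0, φ j y = h := by
  classical
  obtain ⟨b, hb⟩ := chainW_bound.{u} d S j0 m r
  refine ⟨∏ j, (b * m j), ?_⟩
  intro G _ φ hφ
  obtain ⟨h1, h2⟩ := hb G φ hφ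
  refine ⟨fun l => chainW S j0 φ (r - l), ?_, ?_, ⨅ j, (chainW S j0 φ r).map (φ j), ?_, ?_, ?_⟩
  · have hanti : Antitone (chainW S j0 φ) := antitone_nat_of_succ_le fun n => inf_le_left
    intro l l' hl
    exact hanti (Nat.sub_le_sub_left hl r)
  · intro l hl j hj y hy
    have e : r - l = (r - (l + 1)) + 1 := by omega
    have hy' : y ∈ chainW S j0 φ ((r - (l + 1)) + 1) := by
      rw [← e]; exact hy
    have h3 := (AddSubgroup.mem_inf.1 hy').2
    have h4 := (AddSubgroup.mem_iInf.1 h3) ⟨j, hj⟩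
    obtain ⟨t, ht, hty⟩ := AddSubgroup.mem_map.1 (AddSubgroup.mem_comap.1 h4)
    exact ⟨t, ht, hty⟩
  · apply AddSubgroup.index_iInf_ne_zero
    intro j
    exact (index_map_bound (φ j) _ b (m j) h1 h2
      (by rw [(hφ j).1]; exact (hφ j).2) (hφ j).1.le).1
  · refine (AddSubgroup.index_iInf_le _).trans (prod_le_prod' fun j _ => ?_)
    exact (index_map_bound (φ j) _ b (m j) h1 h2
      (by rw [(hφ j).1]; exact (hφ j).2) (hφ j).1.le).2
  · intro h hh j
    obtain ⟨t, ht, hty⟩ := AddSubgroup.mem_map.1 (AddSubgroup.mem_iInf.1 hh j)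
    exact ⟨t, ht, hty⟩

end Pool.Agent.Lib.MP_2d55ae_co
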