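import Mathlib

set_option autoImplicit false

namespace Pool.Agent.Lib.MP_2d55ae_co

open Finset

/-- A nonzero element of an abelian group is detected by a circle-valued character, whose value
there is a root of unity. -/
theorem exists_char {G : Type*} [AddCommGroup G] {g : G} (hg : g ≠ 0) :
    ∃ (χ : AddChar G Circle) (M : ℕ), 0 < M ∧ (χ g : ℂ) ≠ 1 ∧ (χ g : ℂ) ^ M = 1 := by
  obtain ⟨c, hc⟩ := CharacterModule.exists_character_apply_ne_zero_of_ne_zero hg
  let f : ℚ →+ Additive Circle := Circle.expHom.comp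
    ((AddMonoidHom.mulLeft (2 * Real.pi)).comp (algebraMap ℚ ℝ).toAddMonoidHom)
  have hf : ∀ q : ℚ, Additive.toMul (f q) = Circle.exp (2 * Real.pi * (q : ℝ)) := fun q => rfl
  have hker : ∀ x ∈ AddSubgroup.zmultiples (1 : ℚ), f x = 0 := by
    intro x hx
    obtain ⟨n, rfl⟩ := AddSubgroup.mem_zmultiples_iff.1 hx
    have : Additive.toMul (f (n • (1 : ℚ))) = 1 := by
      rw [hf]
      have := Circle.exp_two_pi_mul_int n
      simpa using this
    exact this
  let F : AddCircle (1 : ℚ) →+ Additive Circle := QuotientAddGroup.lift _ f hker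
  let χ : AddChar G Circle := AddChar.toAddMonoidHomEquiv.symm (F.comp c)
  obtain ⟨q, hq⟩ := QuotientAddGroup.mk_surjective (c g)
  have hval : χ g = Circle.exp (2 * Real.pi * (q : ℝ)) := by
    have h1 : χ g = Additive.toMul (F (c g)) := rfl
    rw [h1, ← hq]
    exact hf q
  refine ⟨χ, q.den, q.den_pos, ?_, ?_⟩
  · intro h
    have h1 : Circle.exp (2 * Real.pi * (q : ℝ)) = 1 := by
      rw [← hval]
      exact Circle.ext (by simpa using h)
    obtain ⟨n, hn⟩ := Circle.exp_eq_one.1 h1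
    have hpi : (2 * Real.pi) ≠ 0 := by positivity
    have h2 : (q : ℝ) = n := by
      have : (2 * Real.pi) * (q : ℝ) = (2 * Real.pi) * n := by rw [hn]; ring
      exact mul_left_cancel₀ hpi this
    have h3 : q = n := by exact_mod_cast h2
    apply hc
    rw [← hq, h3]
    exact (QuotientAddGroup.eq_zero_iff _).2 (AddSubgroup.mem_zmultiples_iff.2 ⟨n, by simp⟩)
  · have h1 : (χ g) ^ q.den = 1 := by
      rw [hval, ← Circle.exp_natCast_mul]
      have h2 : ((q.den : ℕ) : ℝ) * (2 * Real.pi * (q : ℝ)) = 2 * Real.pi * (q.num : ℤ) := by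
        have h3 : (q : ℝ) * (q.den : ℝ) = (q.num : ℝ) := by
          exact_mod_cast Rat.mul_den_eq_num q
        calc _ = 2 * Real.pi * ((q : ℝ) * (q.den : ℝ)) := by ring
          _ = _ := by rw [h3]
      rw [h2]
      exact Circle.exp_two_pi_mul_int _
    have := congrArg (fun z : Circle => (z : ℂ)) h1
    simpa using this

/-- For every finite set `Q` there is a finite family of characters whose sum vanishes at all
nonzero elements of `Q`. -/
theorem exists_orthogonal_family {G : Type*} [AddCommGroup G] (Q : Finset G) :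
    ∃ (X : Type) (_ : Fintype X) (_ : Nonempty X) (χ : X → AddChar G Circle),
      ∀ g ∈ Q, g ≠ 0 → ∑ x, (χ x g : ℂ) = 0 := by
  classical
  induction Q using Finset.induction_on with
  | empty => exact ⟨Unit, inferInstance, inferInstance, fun _ => 1, by simp⟩
  | insert a Q ha ih =>
    obtain ⟨X, hX, hXn, χ, hχ⟩ := ih
    by_cases ha0 : a = 0
    · refine ⟨X, hX, hXn, χ, ?_⟩
      intro g hg hg0
      rcases mem_insert.1 hg with h | h
      · exact absurd (h.trans ha0) hg0
      · exact hχ g h hg0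
    · obtain ⟨θ, M, hM, h1, h2⟩ := exists_char ha0
      have : Nonempty (Fin M) := ⟨⟨0, hM⟩⟩
      refine ⟨X × Fin M, inferInstance, inferInstance, fun x => χ x.1 * θ ^ (x.2 : ℕ), ?_⟩
      intro g hg hg0
      have hprod : ∑ x : X × Fin M, (((χ x.1 * θ ^ (x.2 : ℕ)) g : Circle) : ℂ) =
          (∑ x, (χ x g : ℂ)) * ∑ n : Fin M, (θ g : ℂ) ^ (n : ℕ) := by
        rw [Fintype.sum_prod_type, sum_mul_sum]
        refine sum_congr rfl fun x _ => sum_congr rfl fun n _ => ?_
        simp [AddChar.mul_apply, AddChar.pow_apply]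
      rw [hprod]
      rcases mem_insert.1 hg with h | h
      · have : ∑ n : Fin M, (θ g : ℂ) ^ (n : ℕ) = 0 := by
          rw [h, Fin.sum_univ_eq_sum_range (fun n => (θ a : ℂ) ^ n) M]
          have h3 := mul_geom_sum (θ a : ℂ) M
          rw [h2, sub_self] at h3
          rcases mul_eq_zero.1 h3 with h4 | h4
          · exact absurd (sub_eq_zero.1 h4) h1
          · exact h4
        rw [this, mul_zero]
      · rw [hχ g h hg0, zero_mul]

/-- A root of unity of order dividing `q` which is closer to `1` than `1/q` is `1`. -/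
theorem root_far {z : ℂ} {q : ℕ} (hq : 0 < q) (hz : z ^ q = 1) (h1 : ‖z‖ = 1)
    (h : ‖z - 1‖ < 1 / q) : z = 1 := by
  by_contra hne
  have hsum : ∑ n ∈ range q, z ^ n = 0 := by
    have h3 := mul_geom_sum z q
    rw [hz, sub_self] at h3
    rcases mul_eq_zero.1 h3 with h4 | h4
    · exact absurd (sub_eq_zero.1 h4) hne
    · exact h4
  have hb : ∀ n : ℕ, ‖z ^ n - 1‖ ≤ n * ‖z - 1‖ := by
    intro n
    induction n with
    | zero => simp
    | succ n ih =>
      calc ‖z ^ (n + 1) - 1‖ = ‖z * (z ^ n - 1) + (z - 1)‖ := by ring_nf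
        _ ≤ ‖z * (z ^ n - 1)‖ + ‖z - 1‖ := norm_add_le _ _
        _ = ‖z ^ n - 1‖ + ‖z - 1‖ := by rw [norm_mul, h1, one_mul]
        _ ≤ n * ‖z - 1‖ + ‖z - 1‖ := by linarith
        _ = _ := by push_cast; ring
  have hq' : (0 : ℝ) < q := by exact_mod_cast hq
  have h5 : ∀ n ∈ range q, ‖z ^ n - 1‖ < 1 := by
    intro n hn
    have hnq : (n : ℝ) ≤ q := by exact_mod_cast (mem_range.1 hn).le
    calc ‖z ^ n - 1‖ ≤ n * ‖z - 1‖ := hb n
      _ ≤ q * ‖z - 1‖ := mul_le_mul_of_nonneg_right hnq (norm_nonneg _)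
      _ < q * (1 / q) := mul_lt_mul_of_pos_left h hq'
      _ = 1 := by field_simp
  have h6 : ‖∑ n ∈ range q, (z ^ n - 1)‖ < q := by
    calc ‖∑ n ∈ range q, (z ^ n - 1)‖ ≤ ∑ n ∈ range q, ‖z ^ n - 1‖ := norm_sum_le _ _
      _ < ∑ n ∈ range q, (1 : ℝ) :=
        sum_lt_sum_of_nonempty ⟨0, mem_range.2 hq⟩ h5
      _ = q := by simp
  rw [sum_sub_distrib, hsum] at h6
  simp at h6

/-- Finite index subgroups contain Bohr sets with controlled rank and radius. -/
theorem detect {G : Type*} [AddCommGroup G] (H : AddSubgroup G) (B : ℕ) (hH0 : H.index ≠ 0)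
    (hHB : H.index ≤ B) :
    ∃ ψ : Fin B → AddChar G Circle, ∀ g, (∀ l, ‖((ψ l g : Circle) : ℂ) - 1‖ < 1 / (B : ℝ)) →
      g ∈ H := by
  classical
  have hfin : Finite (G ⧸ H) := by
    have : H.FiniteIndex := ⟨hH0⟩
    infer_instance
  have hcard : Nat.card (G ⧸ H) = H.index := rfl
  have := Fintype.ofFinite (G ⧸ H)
  rw [Nat.card_eq_fintype_card] at hcard
  have hBpos : 0 < B := by omega
  have hsurj : ∃ e : Fin B → G ⧸ H, Function.Surjective e := by
    have hle : Fintype.card (G ⧸ H) ≤ Fintype.card (Fin B) := by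
      rw [Fintype.card_fin]; omega
    obtain ⟨emb⟩ := Function.Embedding.nonempty_of_card_le hle
    exact ⟨Function.invFun emb, Function.invFun_surjective emb.injective⟩
  obtain ⟨e, he⟩ := hsurj
  have hψ : ∀ x : G ⧸ H, ∃ χ : AddChar (G ⧸ H) Circle, x ≠ 0 → (χ x : ℂ) ≠ 1 := by
    intro x
    by_cases hx : x = 0
    · exact ⟨1, fun h => absurd hx h⟩
    · obtain ⟨χ, M, -, h1, -⟩ := exists_char hx
      exact ⟨χ, fun _ => h1⟩
  choose χ hχ using hψ
  refine ⟨fun l => (χ (e l)).compAddMonoidHom (QuotientAddGroup.mk' H), ?_⟩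
  intro g hg
  by_contra hgH
  have hx : (QuotientAddGroup.mk' H g) ≠ 0 := by
    intro h
    exact hgH ((QuotientAddGroup.eq_zero_iff g).1 h)
  obtain ⟨l, hl⟩ := he (QuotientAddGroup.mk' H g)
  have h1 := hg l
  rw [AddChar.compAddMonoidHom_apply, hl] at h1
  have h2 := hχ _ hx
  apply h2
  have hidx : 0 < H.index := Nat.pos_of_ne_zero hH0
  refine root_far (q := H.index) hidx ?_ (Circle.norm_coe _) (lt_of_lt_of_le h1 ?_)
  · have h3 : (H.index) • (QuotientAddGroup.mk' H g) = 0 := by
      rw [← hcard]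
      exact card_nsmul_eq_zero
    have h4 := AddChar.map_nsmul_eq_pow (χ (QuotientAddGroup.mk' H g)) H.index
      (QuotientAddGroup.mk' H g)
    rw [h3, AddChar.map_zero_eq_one] at h4
    have := congrArg (fun z : Circle => (z : ℂ)) h4
    simpa using this.symm
  · apply one_div_le_one_div_of_le
    · exact_mod_cast hidx
    · exact_mod_cast hHB

end Pool.Agent.Lib.MP_2d55ae_co
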