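import Mathlib

set_option autoImplicit false

namespace Pool.Agent.Lib.MP_2d55ae_co

open Finset

/-- Finite almost invariant sets in the subgroup generated by a finite set. -/
theorem exists_folner {G : Type*} [AddCommGroup G] (K : Finset G) (κ : ℝ) (hκ : 0 < κ) :
    ∃ Ω : Finset G, Ω.Nonempty ∧ (∀ w ∈ Ω, w ∈ AddSubgroup.closure (K : Set G)) ∧
      ∀ z ∈ K, ∃ E : Finset G, (∀ w ∈ Ω, w + z ∉ Ω → w ∈ E) ∧ (E.card : ℝ) ≤ κ * Ω.card := by
  classical
  let Om : ℕ → Finset G := fun n =>
    (Fintype.piFinset (fun _ : K => range (n + 1))).image (fun f => ∑ k : K, f k • (k : G))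
  have hmono : ∀ n, Om n ⊆ Om (n + 1) := by
    intro n
    apply image_subset_image
    intro f hf
    rw [Fintype.mem_piFinset] at hf ⊢
    intro k
    have := mem_range.1 (hf k)
    exact mem_range.2 (by omega)
  have hne : ∀ n, (Om n).Nonempty := by
    intro n
    refine ⟨_, mem_image.2 ⟨fun _ => 0, ?_, rfl⟩⟩
    rw [Fintype.mem_piFinset]
    intro k
    exact mem_range.2 (by omega)
  have hcl : ∀ n, ∀ w ∈ Om n, w ∈ AddSubgroup.closure (K : Set G) := by
    intro n w hw
    obtain ⟨f, -, rfl⟩ := mem_image.1 hw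
    exact sum_mem fun k _ => nsmul_mem (AddSubgroup.subset_closure k.2) _
  have hshift : ∀ n, ∀ w ∈ Om n, ∀ z ∈ K, w + z ∈ Om (n + 1) := by
    intro n w hw z hz
    obtain ⟨f, hf, rfl⟩ := mem_image.1 hw
    refine mem_image.2 ⟨Function.update f ⟨z, hz⟩ (f ⟨z, hz⟩ + 1), ?_, ?_⟩
    · rw [Fintype.mem_piFinset] at hf ⊢
      intro k
      by_cases hk : k = ⟨z, hz⟩
      · subst hk
        rw [Function.update_self]
        have := mem_range.1 (hf ⟨z, hz⟩)
        exact mem_range.2 (by omega)
      · rw [Function.update_of_ne hk]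
        have := mem_range.1 (hf k)
        exact mem_range.2 (by omega)
    · rw [← Finset.add_sum_erase _ _ (mem_univ (⟨z, hz⟩ : K)),
        ← Finset.add_sum_erase (univ : Finset K) (fun k => f k • (k : G))
          (mem_univ (⟨z, hz⟩ : K))]
      rw [Function.update_self]
      have h4 : ∑ k ∈ univ.erase (⟨z, hz⟩ : K),
          Function.update f ⟨z, hz⟩ (f ⟨z, hz⟩ + 1) k • (k : G)
          = ∑ k ∈ univ.erase (⟨z, hz⟩ : K), f k • (k : G) := by
        apply sum_congr rfl
        intro k hk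
        rw [Function.update_of_ne (ne_of_mem_erase hk)]
      rw [h4]
      simp only [add_smul, one_smul]
      abel
  have hcard : ∀ n, (Om n).card ≤ (n + 1) ^ K.card := by
    intro n
    refine card_image_le.trans ?_
    simp
  obtain ⟨n, hn⟩ : ∃ n, ((Om (n + 1)).card : ℝ) ≤ (1 + κ) * (Om n).card := by
    by_contra hcon
    push Not at hcon
    have hgrow : ∀ n, (1 + κ) ^ n ≤ ((Om n).card : ℝ) := by
      intro n
      induction n with
      | zero =>
        simp only [pow_zero]
        exact_mod_cast (hne 0).card_pos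
      | succ n ih =>
        calc (1 + κ) ^ (n + 1) = (1 + κ) * (1 + κ) ^ n := by ring
          _ ≤ (1 + κ) * (Om n).card := by
            apply mul_le_mul_of_nonneg_left ih (by linarith)
          _ ≤ _ := (hcon n).le
    have hlim := tendsto_pow_const_div_const_pow_of_one_lt K.card
      (show (1 : ℝ) < 1 + κ by linarith)
    have hlim1 : Filter.Tendsto (fun n : ℕ => (((n + 1 : ℕ) : ℝ) ^ K.card / (1 + κ) ^ (n + 1)))
        Filter.atTop (nhds 0) := hlim.comp (Filter.tendsto_add_atTop_nat 1)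
    have hev := hlim1.eventually (gt_mem_nhds (show (0 : ℝ) < 1 / (1 + κ) by positivity))
    obtain ⟨n, hn⟩ := hev.exists
    have h1 : (((n + 1 : ℕ) : ℝ) ^ K.card) < (1 + κ) ^ n := by
      rw [div_lt_iff₀ (by positivity)] at hn
      calc _ < 1 / (1 + κ) * (1 + κ) ^ (n + 1) := hn
        _ = (1 + κ) ^ n := by
          field_simp
          ring
    have h2 := hgrow n
    have h3 : ((Om n).card : ℝ) ≤ ((n + 1 : ℕ) : ℝ) ^ K.card := by
      exact_mod_cast hcard n
    linarith
  refine ⟨Om n, hne n, hcl n, ?_⟩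
  intro z hz
  refine ⟨(Om n).filter (fun w => w + z ∉ Om n), fun w hw hwz => mem_filter.2 ⟨hw, hwz⟩, ?_⟩
  have h1 : ((Om n).filter (fun w => w + z ∉ Om n)).card ≤ (Om (n + 1) \ Om n).card := by
    apply card_le_card_of_injOn (fun w => w + z)
    · intro w hw
      obtain ⟨hw1, hw2⟩ := mem_filter.1 (Finset.mem_coe.1 hw)
      exact Finset.mem_coe.2 (mem_sdiff.2 ⟨hshift n w hw1 z hz, hw2⟩)
    · intro a _ b _ h
      exact add_right_cancel h
  rw [card_sdiff_of_subset (hmono n)] at h1
  have h2 : (((Om n).filter (fun w => w + z ∉ Om n)).card : ℝ) ≤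
      (Om (n + 1)).card - (Om n).card := by
    rw [← Nat.cast_sub (card_le_card (hmono n))]
    exact_mod_cast h1
  linarith

end Pool.Agent.Lib.MP_2d55ae_co
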