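import Pool.Agent.Lib.MP_2d55ae_co.Folner
import Pool.Agent.Lib.MP_2d55ae_co.Chars

set_option autoImplicit false

namespace Pool.Agent.Lib.MP_2d55ae_co

open Finset ComplexConjugate

universe u

variable {G : Type u} [AddCommGroup G]

/-- The exponential sum of a character over a finite set. -/
noncomputable def hat (A : Finset G) (χ : AddChar G Circle) : ℂ := ∑ w ∈ A, (χ w : ℂ)

theorem norm_char (χ : AddChar G Circle) (g : G) : ‖((χ g : Circle) : ℂ)‖ = 1 := Circle.norm_coe _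

theorem char_add (χ : AddChar G Circle) (g h : G) :
    ((χ (g + h) : Circle) : ℂ) = (χ g : ℂ) * (χ h : ℂ) := by
  rw [AddChar.map_add_eq_mul]; simp

theorem char_sub (χ : AddChar G Circle) (g h : G) :
    ((χ (g - h) : Circle) : ℂ) = (χ g : ℂ) * conj (χ h : ℂ) := by
  rw [sub_eq_add_neg, char_add, AddChar.map_neg_eq_inv, Circle.coe_inv_eq_conj]

theorem norm_hat_le (A : Finset G) (χ : AddChar G Circle) : ‖hat A χ‖ ≤ A.card := by
  calc ‖hat A χ‖ ≤ ∑ w ∈ A, ‖((χ w : Circle) : ℂ)‖ := norm_sum_le _ _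
    _ = ∑ _w ∈ A, (1 : ℝ) := sum_congr rfl fun w _ => norm_char χ w
    _ = A.card := by simp

theorem hat_sq (A : Finset G) (χ : AddChar G Circle) :
    ((‖hat A χ‖ ^ 2 : ℝ) : ℂ) = ∑ p ∈ A ×ˢ A, ((χ (p.1 - p.2) : Circle) : ℂ) := by
  have h1 : ((‖hat A χ‖ ^ 2 : ℝ) : ℂ) = hat A χ * conj (hat A χ) := by
    rw [Complex.mul_conj, Complex.normSq_eq_norm_sq]
  rw [h1, hat, map_sum, sum_mul_sum, sum_product]
  exact sum_congr rfl fun w _ => sum_congr rfl fun w' _ => (char_sub χ w w').symm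

/-- Orthogonality for a finite family of characters. -/
theorem sum_sum_eq {X : Type*} [Fintype X] (χ : X → AddChar G Circle) (Q : Finset G)
    (hχ : ∀ g ∈ Q, g ≠ 0 → ∑ x, (χ x g : ℂ) = 0) {ι : Type*} (P : Finset ι) (f : ι → G)
    (hf : ∀ p ∈ P, f p ∈ Q) (R : Finset ι) (hR : ∀ p, p ∈ R ↔ p ∈ P ∧ f p = 0) :
    ∑ x, ∑ p ∈ P, ((χ x (f p) : Circle) : ℂ) = (Fintype.card X : ℂ) * R.card := by
  classical
  rw [sum_comm]
  have h1 : ∀ p ∈ P, ∑ x, ((χ x (f p) : Circle) : ℂ) =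
      if p ∈ R then (Fintype.card X : ℂ) else 0 := by
    intro p hp
    by_cases h : f p = 0
    · rw [if_pos ((hR p).2 ⟨hp, h⟩), h]
      simp
    · rw [if_neg (fun h' => h ((hR p).1 h').2)]
      exact hχ _ (hf p hp) h
  rw [sum_congr rfl h1, ← sum_filter]
  have h2 : P.filter (fun p => p ∈ R) = R := by
    ext p
    simp only [mem_filter, hR]
    tauto
  rw [h2, sum_const, nsmul_eq_mul, mul_comm]

theorem parseval {X : Type*} [Fintype X] (χ : X → AddChar G Circle) (Q : Finset G)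
    (hχ : ∀ g ∈ Q, g ≠ 0 → ∑ x, (χ x g : ℂ) = 0) (A : Finset G)
    (hA : ∀ p ∈ A ×ˢ A, p.1 - p.2 ∈ Q) :
    ∑ x, ‖hat A (χ x)‖ ^ 2 = Fintype.card X * A.card := by
  classical
  have h := sum_sum_eq χ Q hχ (A ×ˢ A) (fun p => p.1 - p.2) hA
    (A.image (fun a => (a, a))) (by
      rintro ⟨a, b⟩
      simp only [mem_image, Prod.mk.injEq, mem_product]
      constructor
      · rintro ⟨x, hx, rfl, rfl⟩
        exact ⟨⟨hx, hx⟩, sub_self _⟩
      · rintro ⟨⟨h1, h2⟩, h3⟩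
        exact ⟨a, h1, rfl, sub_eq_zero.1 h3⟩)
  rw [card_image_of_injective _ (fun a b h => (Prod.mk.injEq _ _ _ _ ▸ h).1)] at h
  have h2 : ((∑ x, ‖hat A (χ x)‖ ^ 2 : ℝ) : ℂ) = ((Fintype.card X * A.card : ℝ) : ℂ) := by
    push_cast
    rw [← h]
    refine sum_congr rfl fun x _ => ?_
    rw [← hat_sq]
    push_cast
    rfl
  exact_mod_cast h2

theorem inversion {X : Type*} [Fintype X] (χ : X → AddChar G Circle) (Q : Finset G)
    (hχ : ∀ g ∈ Q, g ≠ 0 → ∑ x, (χ x g : ℂ) = 0) (A₁ A₂ A₃ : Finset G) (z : G)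
    (hA : ∀ p ∈ A₁ ×ˢ A₂ ×ˢ A₃, p.1 + p.2.1 + p.2.2 - z ∈ Q)
    (R : Finset (G × G × G)) (hR : ∀ p, p ∈ R ↔ p ∈ A₁ ×ˢ A₂ ×ˢ A₃ ∧ p.1 + p.2.1 + p.2.2 - z = 0) :
    ∑ x, conj (χ x z : ℂ) * (hat A₁ (χ x) * hat A₂ (χ x) * hat A₃ (χ x)) =
      Fintype.card X * R.card := by
  rw [← sum_sum_eq χ Q hχ (A₁ ×ˢ A₂ ×ˢ A₃) (fun p => p.1 + p.2.1 + p.2.2 - z) hA R hR]
  refine sum_congr rfl fun x _ => ?_
  simp only [hat, sum_product, char_sub, char_add, ← mul_sum, ← sum_mul]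
  ring

/-- Almost invariance of a finite set makes its exponential sums concentrate. -/
theorem invariance (Ω : Finset G) (z : G) (E : Finset G) (hE : ∀ w ∈ Ω, w + z ∉ Ω → w ∈ E)
    (ψ : AddChar G Circle) : ‖(ψ z : ℂ) - 1‖ * ‖hat Ω ψ‖ ≤ 2 * E.card := by
  classical
  set Ω' : Finset G := Ω.image (fun w => w + z) with hΩ'
  have hinj : Function.Injective (fun w : G => w + z) := fun a b h => add_right_cancel h
  have h1 : (ψ z : ℂ) * hat Ω ψ = hat Ω' ψ := by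
    rw [hat, hat, hΩ', sum_image (fun a _ b _ h => hinj h), mul_sum]
    refine sum_congr rfl fun w _ => ?_
    rw [char_add, mul_comm]
  have hcard : Ω'.card = Ω.card := card_image_of_injective _ hinj
  have h2 : (Ω' \ Ω).card ≤ E.card := by
    have : Ω' \ Ω ⊆ (E).image (fun w => w + z) := by
      intro v hv
      obtain ⟨hv1, hv2⟩ := mem_sdiff.1 hv
      obtain ⟨w, hw, rfl⟩ := mem_image.1 hv1
      exact mem_image.2 ⟨w, hE w hw hv2, rfl⟩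
    exact (card_le_card this).trans card_image_le
  have h3 : (Ω \ Ω').card ≤ E.card := by
    rw [card_sdiff_comm hcard.symm]
    exact h2
  have h4 : hat Ω' ψ - hat Ω ψ = hat (Ω' \ Ω) ψ - hat (Ω \ Ω') ψ := by
    have e1 : hat Ω' ψ = hat (Ω' \ Ω) ψ + hat (Ω' ∩ Ω) ψ := by
      simp only [hat]
      rw [add_comm, sum_inter_add_sum_sdiff]
    have e2 : hat Ω ψ = hat (Ω \ Ω') ψ + hat (Ω' ∩ Ω) ψ := by
      simp only [hat]
      rw [add_comm, inter_comm, sum_inter_add_sum_sdiff]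
    rw [e1, e2]
    ring
  calc ‖(ψ z : ℂ) - 1‖ * ‖hat Ω ψ‖ = ‖((ψ z : ℂ) - 1) * hat Ω ψ‖ := (norm_mul _ _).symm
    _ = ‖hat (Ω' \ Ω) ψ - hat (Ω \ Ω') ψ‖ := by rw [sub_mul, one_mul, h1, h4]
    _ ≤ ‖hat (Ω' \ Ω) ψ‖ + ‖hat (Ω \ Ω') ψ‖ := norm_sub_le _ _
    _ ≤ (Ω' \ Ω).card + (Ω \ Ω').card := add_le_add (norm_hat_le _ _) (norm_hat_le _ _)
    _ ≤ E.card + E.card := by
      exact_mod_cast add_le_add h2 h3
    _ = 2 * E.card := by ring

/-- Almost orthogonal families in a large spectrum are small. -/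
theorem large_spectrum_bound {X : Type*} (χ : X → AddChar G Circle) (Ω A : Finset G) (hA : A ⊆ Ω)
    (hΩ : Ω.Nonempty) (ε τ : ℝ) (hε : 0 < ε) (hτ : 0 ≤ τ) (Λ : Finset X)
    (hlarge : ∀ x ∈ Λ, ε * Ω.card ≤ ‖hat A (χ x)‖)
    (horth : ∀ x ∈ Λ, ∀ y ∈ Λ, x ≠ y → ‖hat Ω (χ x * (χ y)⁻¹)‖ ≤ τ * Ω.card) :
    (Λ.card : ℝ) * (ε ^ 2 - τ) ≤ 1 := by
  classical
  have hΩpos : (0 : ℝ) < Ω.card := by exact_mod_cast hΩ.card_pos
  have hu : ∀ x, ∃ u : ℂ, ‖u‖ ≤ 1 ∧ u * hat A (χ x) = (‖hat A (χ x)‖ : ℂ) := by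
    intro x
    by_cases h0 : hat A (χ x) = 0
    · exact ⟨0, by simp, by simp [h0]⟩
    · refine ⟨conj (hat A (χ x)) / (‖hat A (χ x)‖ : ℂ), ?_, ?_⟩
      · rw [norm_div, RCLike.norm_conj, Complex.norm_real, norm_norm,
          div_self (norm_ne_zero_iff.2 h0)]
      · have hn : (‖hat A (χ x)‖ : ℂ) ≠ 0 := by
          exact_mod_cast norm_ne_zero_iff.2 h0
        rw [div_mul_eq_mul_div, div_eq_iff hn, mul_comm, Complex.mul_conj,
          Complex.normSq_eq_norm_sq]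
        push_cast
        ring
  choose u hu1 hu2 using hu
  set g : G → ℂ := fun w => ∑ x ∈ Λ, u x * (χ x w : ℂ) with hg
  set m : ℝ := (Λ.card : ℝ) with hm
  have hm0 : 0 ≤ m := by positivity
  -- lower bound
  have h1 : m * (ε * Ω.card) ≤ ‖∑ w ∈ A, g w‖ := by
    have e1 : ∑ w ∈ A, g w = ((∑ x ∈ Λ, ‖hat A (χ x)‖ : ℝ) : ℂ) := by
      rw [hg, sum_comm]
      push_cast
      refine sum_congr rfl fun x _ => ?_
      rw [← hu2 x, hat, mul_sum]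
    rw [e1, Complex.norm_real, Real.norm_of_nonneg (sum_nonneg fun x _ => norm_nonneg _)]
    calc m * (ε * Ω.card) = ∑ _x ∈ Λ, ε * Ω.card := by
          rw [sum_const, nsmul_eq_mul]
      _ ≤ _ := sum_le_sum hlarge
  -- upper bound
  have h2 : ‖∑ w ∈ A, g w‖ ^ 2 ≤ Ω.card * ∑ w ∈ Ω, ‖g w‖ ^ 2 := by
    calc ‖∑ w ∈ A, g w‖ ^ 2 ≤ (∑ w ∈ A, ‖g w‖) ^ 2 := by
          apply pow_le_pow_left₀ (norm_nonneg _) (norm_sum_le _ _)
      _ ≤ A.card * ∑ w ∈ A, ‖g w‖ ^ 2 := sq_sum_le_card_mul_sum_sq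
      _ ≤ Ω.card * ∑ w ∈ Ω, ‖g w‖ ^ 2 := by
          apply mul_le_mul
          · exact_mod_cast card_le_card hA
          · exact sum_le_sum_of_subset_of_nonneg hA (fun _ _ _ => by positivity)
          · exact sum_nonneg fun _ _ => by positivity
          · positivity
  have h3 : ∑ w ∈ Ω, ‖g w‖ ^ 2 ≤ m * Ω.card + m * (m * (τ * Ω.card)) := by
    have e1 : ((∑ w ∈ Ω, ‖g w‖ ^ 2 : ℝ) : ℂ) =
        ∑ x ∈ Λ, ∑ y ∈ Λ, u x * conj (u y) * hat Ω (χ x * (χ y)⁻¹) := by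
      push_cast
      have e2 : ∀ w ∈ Ω, ((‖g w‖ : ℂ)) ^ 2 = ∑ x ∈ Λ, ∑ y ∈ Λ,
          u x * conj (u y) * (((χ x * (χ y)⁻¹) w : Circle) : ℂ) := by
        intro w _
        have e3 : ((‖g w‖ : ℂ)) ^ 2 = g w * conj (g w) := by
          rw [Complex.mul_conj, Complex.normSq_eq_norm_sq]
          push_cast
          rfl
        rw [e3, hg, map_sum, sum_mul_sum]
        refine sum_congr rfl fun x _ => sum_congr rfl fun y _ => ?_
        rw [AddChar.mul_apply, AddChar.inv_apply, Circle.coe_mul, AddChar.map_neg_eq_inv,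
          Circle.coe_inv_eq_conj, map_mul]
        ring
      rw [sum_congr rfl e2, sum_comm]
      refine sum_congr rfl fun x _ => ?_
      rw [sum_comm]
      refine sum_congr rfl fun y _ => ?_
      rw [hat, mul_sum]
    have e4 : ∑ w ∈ Ω, ‖g w‖ ^ 2 = ‖((∑ w ∈ Ω, ‖g w‖ ^ 2 : ℝ) : ℂ)‖ := by
      rw [Complex.norm_real, Real.norm_of_nonneg (sum_nonneg fun _ _ => by positivity)]
    rw [e4, e1]
    calc ‖∑ x ∈ Λ, ∑ y ∈ Λ, u x * conj (u y) * hat Ω (χ x * (χ y)⁻¹)‖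
        ≤ ∑ x ∈ Λ, ∑ y ∈ Λ, ‖u x * conj (u y) * hat Ω (χ x * (χ y)⁻¹)‖ :=
          (norm_sum_le _ _).trans (sum_le_sum fun x _ => norm_sum_le _ _)
      _ ≤ ∑ x ∈ Λ, ∑ y ∈ Λ, ((if x = y then (Ω.card : ℝ) else 0) + τ * Ω.card) := by
          refine sum_le_sum fun x hx => sum_le_sum fun y hy => ?_
          have e5 : ‖u x * conj (u y) * hat Ω (χ x * (χ y)⁻¹)‖ ≤ ‖hat Ω (χ x * (χ y)⁻¹)‖ := by
            rw [norm_mul, norm_mul, RCLike.norm_conj]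
            have := mul_le_mul (hu1 x) (hu1 y) (norm_nonneg _) zero_le_one
            calc ‖u x‖ * ‖u y‖ * ‖hat Ω (χ x * (χ y)⁻¹)‖
                ≤ 1 * 1 * ‖hat Ω (χ x * (χ y)⁻¹)‖ :=
                  mul_le_mul_of_nonneg_right this (norm_nonneg _)
              _ = _ := by ring
          refine e5.trans ?_
          by_cases hxy : x = y
          · rw [if_pos hxy]
            have := norm_hat_le Ω (χ x * (χ y)⁻¹)
            have h0 : 0 ≤ τ * (Ω.card : ℝ) := by positivity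
            linarith
          · rw [if_neg hxy, zero_add]
            exact horth x hx y hy hxy
      _ = m * Ω.card + m * (m * (τ * Ω.card)) := by
          simp only [sum_add_distrib, sum_const, nsmul_eq_mul]
          congr 1
          rw [sum_congr rfl (fun x hx => (by
            rw [sum_ite_eq, if_pos hx] : (∑ y ∈ Λ, if x = y then (Ω.card : ℝ) else 0) =
              (Ω.card : ℝ)))]
          rw [sum_const, nsmul_eq_mul]
  have h4 : (m * (ε * Ω.card)) ^ 2 ≤ Ω.card * (m * Ω.card + m * (m * (τ * Ω.card))) := by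
    calc (m * (ε * Ω.card)) ^ 2 ≤ ‖∑ w ∈ A, g w‖ ^ 2 := by
          apply pow_le_pow_left₀ (by positivity) h1
      _ ≤ Ω.card * ∑ w ∈ Ω, ‖g w‖ ^ 2 := h2
      _ ≤ _ := mul_le_mul_of_nonneg_left h3 hΩpos.le
  rcases hm0.eq_or_lt with h0 | hmpos
  · rw [← h0]; simp
  · have h5 : (m * (ε ^ 2 - τ)) * (m * (Ω.card : ℝ) ^ 2) ≤ 1 * (m * (Ω.card : ℝ) ^ 2) := by
      nlinarith
    exact le_of_mul_le_mul_right h5 (by positivity)

/-- The large spectrum is covered by few characters, up to a small error on `K`. -/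
theorem spectrum_cover {X : Type*} [Fintype X] (χ : X → AddChar G Circle) (K Ω A : Finset G)
    (hA : A ⊆ Ω) (hΩ : Ω.Nonempty) (ε κ : ℝ) (hε : 0 < ε)
    (hinv : ∀ z ∈ K, ∃ E : Finset G, (∀ w ∈ Ω, w + z ∉ Ω → w ∈ E) ∧
      (E.card : ℝ) ≤ κ * Ω.card) :
    ∃ Λ : Finset X, (Λ.card : ℝ) * (ε ^ 2 / 2) ≤ 1 ∧
      ∀ x, ε * Ω.card ≤ ‖hat A (χ x)‖ → ∃ y ∈ Λ, ∀ z ∈ K,
        ‖(χ x z : ℂ) - (χ y z : ℂ)‖ ≤ 2 * κ / (ε ^ 2 / 2) := by
  classical
  set τ : ℝ := ε ^ 2 / 2 with hτ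
  have hτpos : 0 < τ := by positivity
  have hΩpos : (0 : ℝ) < Ω.card := by exact_mod_cast hΩ.card_pos
  let L : Finset X := univ.filter (fun x => ε * Ω.card ≤ ‖hat A (χ x)‖)
  let P : Finset X → Prop := fun Λ => ∀ x ∈ Λ, ∀ y ∈ Λ, x ≠ y →
    ‖hat Ω (χ x * (χ y)⁻¹)‖ ≤ τ * Ω.card
  obtain ⟨Λ, hΛ, hmax⟩ := exists_max_image (L.powerset.filter P) Finset.card
    ⟨∅, mem_filter.2 ⟨empty_mem_powerset _, fun x hx => absurd hx (notMem_empty _)⟩⟩
  obtain ⟨hΛL, hΛP⟩ := mem_filter.1 hΛ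
  rw [mem_powerset] at hΛL
  refine ⟨Λ, ?_, ?_⟩
  · have := large_spectrum_bound χ Ω A hA hΩ ε τ hε hτpos.le Λ
      (fun x hx => (mem_filter.1 (hΛL hx)).2) hΛP
    have e : ε ^ 2 - τ = τ := by rw [hτ]; ring
    rwa [e] at this
  · intro x hx
    have hxL : x ∈ L := mem_filter.2 ⟨mem_univ _, hx⟩
    have key : ∀ x y : X, τ * Ω.card < ‖hat Ω (χ x * (χ y)⁻¹)‖ → ∀ z ∈ K,
        ‖(χ x z : ℂ) - (χ y z : ℂ)‖ ≤ 2 * κ / τ := by
      intro x y hxy z hz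
      obtain ⟨E, hE1, hE2⟩ := hinv z hz
      have h1 := invariance Ω z E hE1 (χ x * (χ y)⁻¹)
      have h2 : ‖(((χ x * (χ y)⁻¹) z : Circle) : ℂ) - 1‖ = ‖(χ x z : ℂ) - (χ y z : ℂ)‖ := by
        have e1 : (χ x z : ℂ) - (χ y z : ℂ) =
            (χ y z : ℂ) * ((((χ x * (χ y)⁻¹) z : Circle) : ℂ) - 1) := by
          rw [AddChar.mul_apply, AddChar.inv_apply, Circle.coe_mul, AddChar.map_neg_eq_inv,
            Circle.coe_inv_eq_conj, mul_sub, mul_one, mul_left_comm, Complex.mul_conj,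
            Circle.normSq_coe]
          simp
        rw [e1, norm_mul, norm_char, one_mul]
      rw [h2] at h1
      rw [le_div_iff₀ hτpos]
      have h3 : ‖(χ x z : ℂ) - (χ y z : ℂ)‖ * (τ * Ω.card) ≤ 2 * κ * Ω.card := by
        calc _ ≤ ‖(χ x z : ℂ) - (χ y z : ℂ)‖ * ‖hat Ω (χ x * (χ y)⁻¹)‖ :=
              mul_le_mul_of_nonneg_left hxy.le (norm_nonneg _)
          _ ≤ 2 * E.card := h1
          _ ≤ 2 * (κ * Ω.card) := by linarith
          _ = _ := by ring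
      have h4 : (‖(χ x z : ℂ) - (χ y z : ℂ)‖ * τ) * Ω.card ≤ (2 * κ) * Ω.card := by
        calc _ = ‖(χ x z : ℂ) - (χ y z : ℂ)‖ * (τ * Ω.card) := by ring
          _ ≤ _ := h3
      exact le_of_mul_le_mul_right h4 hΩpos
    by_cases hxΛ : x ∈ Λ
    · refine ⟨x, hxΛ, fun z hz => ?_⟩
      obtain ⟨E, hE1, hE2⟩ := hinv z hz
      rw [sub_self, norm_zero]
      have : 0 ≤ κ * Ω.card := le_trans (by positivity) hE2
      have hκ : 0 ≤ κ := nonneg_of_mul_nonneg_left this hΩpos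
      positivity
    · have hnot : ¬ P (insert x Λ) := by
        intro hP
        have h1 := hmax (insert x Λ) (mem_filter.2 ⟨mem_powerset.2 (insert_subset hxL hΛL), hP⟩)
        rw [card_insert_of_notMem hxΛ] at h1
        omega
      simp only [P] at hnot
      push Not at hnot
      obtain ⟨a, ha, b, hb, hab, hlt⟩ := hnot
      rcases mem_insert.1 ha with rfl | ha'
      · rcases mem_insert.1 hb with rfl | hb'
        · exact absurd rfl hab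
        · exact ⟨b, hb', key a b hlt⟩
      · rcases mem_insert.1 hb with rfl | hb'
        · refine ⟨a, ha', fun z hz => ?_⟩
          rw [norm_sub_rev]
          exact key a b hlt z hz
        · exact absurd (hΛP a ha' b hb' hab) (not_le.2 hlt)

/-- A finitary Bogolyubov type statement with three summands. -/
theorem fourier_main (c : ℝ) (hc : 0 < c) :
    ∃ (k : ℕ) (η : ℝ), 0 < η ∧ ∀ (G : Type u) [AddCommGroup G] (K : Finset G),
      ∃ Ω₁ Ω₃ : Finset G, Ω₁.Nonempty ∧ Ω₃.Nonempty ∧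
        (∀ w ∈ Ω₁, w ∈ AddSubgroup.closure (K : Set G)) ∧
        (∀ w ∈ Ω₃, w ∈ AddSubgroup.closure (K : Set G)) ∧
        ∀ (B₁ B₂ B₃ : Set G) (F : Finset (G × G)),
          (∀ p ∈ F, p.1 ∈ Ω₁ ∧ p.2 ∈ Ω₃ ∧ p.1 ∈ B₁ ∧ - p.1 - p.2 ∈ B₂ ∧ p.2 ∈ B₃) →
          c * Ω₁.card * Ω₃.card ≤ F.card →
          ∃ χ : Fin k → AddChar G Circle, ∀ z ∈ K, (∀ l, ‖((χ l z : Circle) : ℂ) - 1‖ < η) →
            ∃ w₁ w₂ w₃, w₁ ∈ Ω₁ ∧ - w₂ ∈ Ω₁ ∧ w₃ ∈ Ω₃ ∧ w₁ ∈ B₁ ∧ w₂ ∈ B₂ ∧ w₃ ∈ B₃ ∧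
              w₁ + w₂ + w₃ = z := by
  classical
  set ε : ℝ := c / 8 with hε
  have hεpos : 0 < ε := by positivity
  set τ : ℝ := ε ^ 2 / 2 with hτ
  have hτpos : 0 < τ := by positivity
  set κ : ℝ := τ * c / 16 with hκ
  have hκpos : 0 < κ := by positivity
  refine ⟨⌈1 / τ⌉₊, c / 8, by positivity, ?_⟩
  intro G _ K
  obtain ⟨Ω₃, hΩ₃, hΩ₃K, hinv₃⟩ := exists_folner K κ hκpos
  obtain ⟨Ω₁, hΩ₁, hΩ₁K, hinv₁⟩ := exists_folner Ω₃ (c / 4) (by positivity)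
  refine ⟨Ω₁, Ω₃, hΩ₁, hΩ₃, ?_, hΩ₃K, ?_⟩
  · intro w hw
    have h1 := hΩ₁K w hw
    refine (AddSubgroup.closure_le _).2 ?_ h1
    intro x hx
    exact hΩ₃K x hx
  intro B₁ B₂ B₃ F hF hcard
  set A₁ : Finset G := Ω₁.filter (fun w => w ∈ B₁) with hA₁
  set A₂ : Finset G := (Ω₁.image (fun w => - w)).filter (fun w => w ∈ B₂) with hA₂
  set A₃ : Finset G := Ω₃.filter (fun w => w ∈ B₃) with hA₃
  have hA₁c : A₁.card ≤ Ω₁.card := card_filter_le _ _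
  have hA₂c : A₂.card ≤ Ω₁.card := (card_filter_le _ _).trans card_image_le
  have hA₃Ω : A₃ ⊆ Ω₃ := filter_subset _ _
  set T : Finset (G × G × G) := A₁ ×ˢ A₂ ×ˢ A₃ with hT
  let Q : Finset G := ((A₁ ×ˢ A₁).image (fun p => p.1 - p.2)) ∪
    ((A₂ ×ˢ A₂).image (fun p => p.1 - p.2)) ∪
    ((T ×ˢ (insert 0 K)).image (fun p => p.1.1 + p.1.2.1 + p.1.2.2 - p.2))
  obtain ⟨X, hX, hXn, χ, hχ⟩ := exists_orthogonal_family Q
  have hXpos : (0 : ℝ) < Fintype.card X := by exact_mod_cast Fintype.card_pos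
  have hP₁ := parseval χ Q hχ A₁ (fun p hp => mem_union_left _ (mem_union_left _
    (mem_image_of_mem _ hp)))
  have hP₂ := parseval χ Q hχ A₂ (fun p hp => mem_union_left _ (mem_union_right _
    (mem_image_of_mem _ hp)))
  let R : G → Finset (G × G × G) := fun z => T.filter (fun p => p.1 + p.2.1 + p.2.2 - z = 0)
  have hI : ∀ z ∈ insert 0 K, ∑ x, conj (χ x z : ℂ) *
      (hat A₁ (χ x) * hat A₂ (χ x) * hat A₃ (χ x)) = Fintype.card X * (R z).card := by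
    intro z hz
    apply inversion χ Q hχ A₁ A₂ A₃ z
    · intro p hp
      exact mem_union_right _ (mem_image.2 ⟨(p, z), mem_product.2 ⟨hp, hz⟩, rfl⟩)
    · intro p
      exact mem_filter
  obtain ⟨Λ, hΛc, hΛ⟩ := spectrum_cover χ K Ω₃ A₃ hA₃Ω hΩ₃ ε κ hεpos hinv₃
  rw [← hτ] at hΛc hΛ
  have hΛk : Fintype.card Λ ≤ Fintype.card (Fin ⌈1 / τ⌉₊) := by
    rw [Fintype.card_coe, Fintype.card_fin]
    have h1 : (Λ.card : ℝ) ≤ 1 / τ := by rwa [le_div_iff₀ hτpos]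
    exact_mod_cast h1.trans (Nat.le_ceil _)
  obtain ⟨emb⟩ := Function.Embedding.nonempty_of_card_le hΛk
  refine ⟨Function.extend emb (fun y => χ y.1) (fun _ => 1), ?_⟩
  intro z hz hzB
  have hzΛ : ∀ y ∈ Λ, ‖((χ y z : Circle) : ℂ) - 1‖ < c / 8 := by
    intro y hy
    have h1 := hzB (emb ⟨y, hy⟩)
    rwa [emb.injective.extend_apply] at h1
  have hzx : ∀ x, ‖((χ x z : Circle) : ℂ) - 1‖ * ‖hat A₃ (χ x)‖ ≤ c / 4 * Ω₃.card := by
    intro x
    by_cases hx : ε * Ω₃.card ≤ ‖hat A₃ (χ x)‖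
    · obtain ⟨y, hy, hyz⟩ := hΛ x hx
      have h1 := hyz z hz
      have h2 := hzΛ y hy
      have h3 : 2 * κ / τ = c / 8 := by
        rw [hκ]
        field_simp
        ring
      have h4 : ‖((χ x z : Circle) : ℂ) - 1‖ ≤ c / 4 := by
        calc ‖((χ x z : Circle) : ℂ) - 1‖ =
            ‖((χ x z : ℂ) - (χ y z : ℂ)) + ((χ y z : ℂ) - 1)‖ := by ring_nf
          _ ≤ ‖(χ x z : ℂ) - (χ y z : ℂ)‖ + ‖(χ y z : ℂ) - 1‖ := norm_add_le _ _
          _ ≤ c / 8 + c / 8 := add_le_add (h1.trans h3.le) h2.le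
          _ = c / 4 := by ring
      have h5 : ‖hat A₃ (χ x)‖ ≤ Ω₃.card :=
        (norm_hat_le _ _).trans (by exact_mod_cast card_le_card hA₃Ω)
      exact mul_le_mul h4 h5 (norm_nonneg _) (by positivity)
    · have h1 : ‖((χ x z : Circle) : ℂ) - 1‖ ≤ 2 := by
        calc ‖((χ x z : Circle) : ℂ) - 1‖ ≤ ‖((χ x z : Circle) : ℂ)‖ + ‖(1 : ℂ)‖ :=
              norm_sub_le _ _
          _ = 2 := by rw [norm_char, norm_one]; norm_num
      have h2 : ‖hat A₃ (χ x)‖ ≤ ε * Ω₃.card := (not_le.1 hx).le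
      calc _ ≤ 2 * (ε * Ω₃.card) := mul_le_mul h1 h2 (norm_nonneg _) (by norm_num)
        _ = c / 4 * Ω₃.card := by rw [hε]; ring
  have hdiff : |((R z).card : ℝ) - (R 0).card| ≤ c / 4 * Ω₃.card * Ω₁.card := by
    have e1 : ((Fintype.card X * (((R z).card : ℝ) - (R 0).card) : ℝ) : ℂ) =
        ∑ x, (conj (χ x z : ℂ) - 1) * (hat A₁ (χ x) * hat A₂ (χ x) * hat A₃ (χ x)) := by
      have h1 := hI z (mem_insert_of_mem hz)
      have h2 := hI 0 (mem_insert_self _ _)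
      push_cast
      rw [mul_sub, ← h1, ← h2, ← sum_sub_distrib]
      refine sum_congr rfl fun x _ => ?_
      rw [AddChar.map_zero_eq_one]
      simp only [Circle.coe_one, map_one]
      ring
    have e2 : |(Fintype.card X * (((R z).card : ℝ) - (R 0).card) : ℝ)| ≤
        Fintype.card X * (c / 4 * Ω₃.card * Ω₁.card) := by
      rw [← Real.norm_eq_abs, ← Complex.norm_real, e1]
      calc ‖∑ x, (conj (χ x z : ℂ) - 1) * (hat A₁ (χ x) * hat A₂ (χ x) * hat A₃ (χ x))‖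
          ≤ ∑ x, ‖(conj (χ x z : ℂ) - 1) * (hat A₁ (χ x) * hat A₂ (χ x) * hat A₃ (χ x))‖ :=
            norm_sum_le _ _
        _ ≤ ∑ x, (c / 4 * Ω₃.card) * ((‖hat A₁ (χ x)‖ ^ 2 + ‖hat A₂ (χ x)‖ ^ 2) / 2) := by
            refine sum_le_sum fun x _ => ?_
            have h1 : ‖conj (χ x z : ℂ) - 1‖ = ‖(χ x z : ℂ) - 1‖ := by
              rw [← RCLike.norm_conj ((χ x z : ℂ) - 1), map_sub, map_one]
            rw [norm_mul, norm_mul, norm_mul, h1]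
            calc ‖(χ x z : ℂ) - 1‖ * (‖hat A₁ (χ x)‖ * ‖hat A₂ (χ x)‖ * ‖hat A₃ (χ x)‖)
                = (‖(χ x z : ℂ) - 1‖ * ‖hat A₃ (χ x)‖) *
                  (‖hat A₁ (χ x)‖ * ‖hat A₂ (χ x)‖) := by ring
              _ ≤ (c / 4 * Ω₃.card) * ((‖hat A₁ (χ x)‖ ^ 2 + ‖hat A₂ (χ x)‖ ^ 2) / 2) := by
                apply mul_le_mul (hzx x) _ (by positivity) (by positivity)
                nlinarith [sq_nonneg (‖hat A₁ (χ x)‖ - ‖hat A₂ (χ x)‖)]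
        _ = (c / 4 * Ω₃.card) * ((Fintype.card X * A₁.card + Fintype.card X * A₂.card) / 2) := by
            rw [← mul_sum, ← sum_div, sum_add_distrib, hP₁, hP₂]
        _ ≤ (c / 4 * Ω₃.card) * ((Fintype.card X * Ω₁.card + Fintype.card X * Ω₁.card) / 2) := by
            have h1 : (A₁.card : ℝ) ≤ Ω₁.card := by exact_mod_cast hA₁c
            have h2 : (A₂.card : ℝ) ≤ Ω₁.card := by exact_mod_cast hA₂c
            gcongr
        _ = _ := by ring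
    rw [abs_mul, abs_of_pos hXpos] at e2
    exact le_of_mul_le_mul_left e2 hXpos
  have hzero : 3 * c / 4 * Ω₃.card * Ω₁.card ≤ ((R 0).card : ℝ) := by
    have h1 : ∀ w₃ ∈ Ω₃, ∃ E : Finset G, (∀ w ∈ Ω₁, w + w₃ ∉ Ω₁ → w ∈ E) ∧
        (E.card : ℝ) ≤ c / 4 * Ω₁.card := hinv₁
    choose! E hE1 hE2 using h1
    have h2 : F ⊆ ((R 0).image (fun p => (p.1, p.2.2))) ∪
        (Ω₃.biUnion (fun w₃ => (E w₃) ×ˢ {w₃})) := by
      rintro ⟨w₁, w₃⟩ hp
      obtain ⟨h3, h4, h5, h6, h7⟩ := hF _ hp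
      simp only at h3 h4 h5 h6 h7
      by_cases hw : w₁ + w₃ ∈ Ω₁
      · apply mem_union_left
        refine mem_image.2 ⟨(w₁, - w₁ - w₃, w₃), mem_filter.2 ⟨?_, ?_⟩, rfl⟩
        · refine mem_product.2 ⟨mem_filter.2 ⟨h3, h5⟩, mem_product.2 ⟨mem_filter.2 ⟨?_, h6⟩,
            mem_filter.2 ⟨h4, h7⟩⟩⟩
          exact mem_image.2 ⟨w₁ + w₃, hw, by simp only; abel⟩
        · simp only
          abel
      · apply mem_union_right
        exact mem_biUnion.2 ⟨w₃, h4, mem_product.2 ⟨hE1 w₃ h4 w₁ h3 hw, mem_singleton_self _⟩⟩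
    have h3 : (F.card : ℝ) ≤ (R 0).card + Ω₃.card * (c / 4 * Ω₁.card) := by
      have h4 : F.card ≤ (R 0).card + ∑ w₃ ∈ Ω₃, (E w₃).card := by
        refine (card_le_card h2).trans ((card_union_le _ _).trans ?_)
        refine add_le_add card_image_le (card_biUnion_le.trans (le_of_eq ?_))
        refine sum_congr rfl fun w₃ _ => ?_
        rw [card_product, card_singleton, mul_one]
      have h5 : (∑ w₃ ∈ Ω₃, (E w₃).card : ℝ) ≤ Ω₃.card * (c / 4 * Ω₁.card) := by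
        calc (∑ w₃ ∈ Ω₃, (E w₃).card : ℝ) ≤ ∑ _w₃ ∈ Ω₃, (c / 4 * Ω₁.card) := sum_le_sum hE2
          _ = _ := by rw [sum_const, nsmul_eq_mul]
      have h6 : (F.card : ℝ) ≤ (R 0).card + ∑ w₃ ∈ Ω₃, ((E w₃).card : ℝ) := by
        exact_mod_cast h4
      linarith
    linarith
  have hΩ₁pos : (0 : ℝ) < Ω₁.card := by exact_mod_cast hΩ₁.card_pos
  have hΩ₃pos : (0 : ℝ) < Ω₃.card := by exact_mod_cast hΩ₃.card_pos
  have hRz : 0 < ((R z).card : ℝ) := by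
    have h1 := (abs_le.1 hdiff).1
    have h2 : 0 < c * Ω₃.card * Ω₁.card := by positivity
    linarith
  have hRz' : 0 < (R z).card := by exact_mod_cast hRz
  obtain ⟨⟨w₁, w₂, w₃⟩, hp⟩ := card_pos.1 hRz'
  obtain ⟨hpT, hsum⟩ := mem_filter.1 hp
  obtain ⟨hp1, hp23⟩ := mem_product.1 hpT
  obtain ⟨hp2, hp3⟩ := mem_product.1 hp23
  simp only at hp1 hp2 hp3 hsum
  obtain ⟨hp2a, hp2b⟩ := mem_filter.1 hp2
  refine ⟨w₁, w₂, w₃, (mem_filter.1 hp1).1, ?_, (mem_filter.1 hp3).1, (mem_filter.1 hp1).2, hp2b,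
    (mem_filter.1 hp3).2, sub_eq_zero.1 hsum⟩
  obtain ⟨w, hw, rfl⟩ := mem_image.1 hp2a
  rwa [neg_neg]

end Pool.Agent.Lib.MP_2d55ae_co
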