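import Pool.Agent.Lib.MP_2d55ae_co.Shift
import Pool.Agent.Lib.MP_2d55ae_co.Fourier
import Pool.Agent.Lib.MP_2d55ae_co.Chain

set_option autoImplicit false

namespace Pool.Agent.Lib.MP_2d55ae_co

open Finset

universe u

/-- The statement on finite sets of targets. -/
theorem main_finite (d r : ℕ) (hd : 3 ≤ d) (S : Finset (Fin d)) (j0 : Fin d) (hj0 : j0 ∈ S) :
    ∃ (k : ℕ) (η : ℝ), 0 < η ∧
      ∀ (G : Type u) [AddCommGroup G] (φ : Fin d → (G →+ G)) (U : ℕ → AddSubgroup G),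
        Monotone U →
        (∀ l, l < r → ∀ j, j ∉ S → ∀ y ∈ U l, ∃ t ∈ U (l + 1), φ j0 t = φ j y) →
        ∑ j ∈ S, φ j = 0 →
        ∀ H : AddSubgroup G, (∀ h ∈ H, ∀ j, ∃ y ∈ U 0, φ j y = h) →
        ∀ (c : G → Fin r) (K : Finset G), (∀ z ∈ K, z ∈ H) →
        ∃ (i : Fin r) (χ : Fin k → AddChar G Circle),
          ∀ z ∈ K, (∀ l, ‖((χ l z : Circle) : ℂ) - 1‖ < η) →
            ∃ a : Fin d → G, (∀ j, c (a j) = i) ∧ ∑ j, φ j (a j) = z := by
  classical
  obtain ⟨N, hN, hA⟩ := interfaceA.{u} d r S j0 hj0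
  obtain ⟨k, η, hη, hF⟩ := fourier_main.{u} (1 / N) (by positivity)
  refine ⟨k, η, hη, ?_⟩
  intro G _ φ U hU hchain hS H hH c K hK
  obtain ⟨Ω₁, Ω₃, hΩ₁, hΩ₃, hΩ₁K, hΩ₃K, hmain⟩ := hF G K
  have hcl : AddSubgroup.closure (K : Set G) ≤ H := (AddSubgroup.closure_le _).2 hK
  -- sections
  have hsec : ∀ (j : Fin d) (h : G), ∃ y ∈ U 0, h ∈ H → φ j y = h := by
    intro j h
    by_cases hh : h ∈ H
    · obtain ⟨y, hy, hyh⟩ := hH h hh j
      exact ⟨y, hy, fun _ => hyh⟩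
    · exact ⟨0, zero_mem _, fun h' => absurd h' hh⟩
  choose s hs0 hs using hsec
  let j1 : Fin d := ⟨0, by omega⟩
  let j2 : Fin d := ⟨1, by omega⟩
  let j3 : Fin d := ⟨2, by omega⟩
  have h12 : j1 ≠ j2 := by simp [j1, j2]
  have h13 : j1 ≠ j3 := by simp [j1, j3]
  have h23 : j2 ≠ j3 := by simp [j2, j3]
  -- the vector with given targets
  let vec : G → G → G → Fin d → G := fun w₁ w₂ w₃ j =>
    if j = j1 then s j1 w₁ else if j = j2 then s j2 w₂ else if j = j3 then s j3 w₃ else 0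
  have hvecU : ∀ w₁ w₂ w₃ j, vec w₁ w₂ w₃ j ∈ U 0 := by
    intro w₁ w₂ w₃ j
    simp only [vec]
    split_ifs
    · exact hs0 _ _
    · exact hs0 _ _
    · exact hs0 _ _
    · exact zero_mem _
  have hvecsum : ∀ w₁ ∈ H, ∀ w₂ ∈ H, ∀ w₃ ∈ H, ∑ j, φ j (vec w₁ w₂ w₃ j) = w₁ + w₂ + w₃ := by
    intro w₁ hw₁ w₂ hw₂ w₃ hw₃
    have h1 : ∀ j, φ j (vec w₁ w₂ w₃ j) = (if j = j1 then w₁ else 0) +
        (if j = j2 then w₂ else 0) + (if j = j3 then w₃ else 0) := by
      intro j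
      simp only [vec]
      by_cases e1 : j = j1
      · subst e1
        simp [h12, h13, hs _ _ hw₁]
      · by_cases e2 : j = j2
        · subst e2
          simp [h12.symm, h23, hs _ _ hw₂]
        · by_cases e3 : j = j3
          · subst e3
            simp [h13.symm, h23.symm, hs _ _ hw₃]
          · simp [e1, e2, e3]
    rw [sum_congr rfl (fun j _ => h1 j), sum_add_distrib, sum_add_distrib]
    simp
  have hΩ₁H : ∀ w ∈ Ω₁, w ∈ H := fun w hw => hcl (hΩ₁K w hw)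
  have hΩ₃H : ∀ w ∈ Ω₃, w ∈ H := fun w hw => hcl (hΩ₃K w hw)
  obtain ⟨i, x0, v0, F, hv0, hF1, hF2⟩ := hA G φ U hU hchain ((Ω₁ ×ˢ Ω₃ : Finset (G × G)))
    (fun ω => vec ω.1.1 (- ω.1.1 - ω.1.2) ω.1.2)
    (fun ω j => hvecU _ _ _ _)
    (fun ω => by
      obtain ⟨h1, h2⟩ := mem_product.1 ω.2
      rw [hvecsum _ (hΩ₁H _ h1) _ (sub_mem (neg_mem (hΩ₁H _ h1)) (hΩ₃H _ h2)) _ (hΩ₃H _ h2)]
      abel) c
  let base : Fin d → G := fun j => (if j ∈ S then x0 else 0) + v0 j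
  let Bset : Fin d → Set G := fun j => {w | c (base j + s j w) = i}
  have hF3 : ∀ p ∈ F.map (Function.Embedding.subtype _), p.1 ∈ Ω₁ ∧ p.2 ∈ Ω₃ ∧ p.1 ∈ Bset j1 ∧
      - p.1 - p.2 ∈ Bset j2 ∧ p.2 ∈ Bset j3 := by
    intro p hp
    obtain ⟨ω, hω, rfl⟩ := mem_map.1 hp
    obtain ⟨h1, h2⟩ := mem_product.1 ω.2
    have h3 := hF1 ω hω
    refine ⟨h1, h2, ?_, ?_, ?_⟩
    · have := h3 j1
      simpa [Bset, base, vec] using this
    · have := h3 j2
      simpa [Bset, base, vec, h12.symm] using this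
    · have := h3 j3
      simpa [Bset, base, vec, h13.symm, h23.symm] using this
  have hcard : (1 / N : ℝ) * Ω₁.card * Ω₃.card ≤ (F.map (Function.Embedding.subtype _)).card := by
    rw [card_map]
    have h1 : Fintype.card ((Ω₁ ×ˢ Ω₃ : Finset (G × G))) = Ω₁.card * Ω₃.card := by
      rw [Fintype.card_coe, card_product]
    rw [h1] at hF2
    have h2 : (Ω₁.card : ℝ) * Ω₃.card ≤ N * F.card := by exact_mod_cast hF2
    have hNpos : (0 : ℝ) < N := by exact_mod_cast hN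
    rw [mul_assoc, one_div, inv_mul_le_iff₀ hNpos]
    exact h2
  have hFne : F.Nonempty := by
    rw [← card_pos]
    by_contra hcon
    have h0 : F.card = 0 := by omega
    rw [h0, mul_zero, Fintype.card_coe, card_product] at hF2
    have := Nat.mul_pos hΩ₁.card_pos hΩ₃.card_pos
    omega
  have hbase : ∀ j, j ≠ j1 → j ≠ j2 → j ≠ j3 → c (base j) = i := by
    intro j e1 e2 e3
    obtain ⟨ω, hω⟩ := hFne
    have := hF1 ω hω j
    simpa [base, vec, e1, e2, e3] using this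
  obtain ⟨χ, hχ⟩ := hmain (Bset j1) (Bset j2) (Bset j3) _ hF3 hcard
  refine ⟨i, χ, ?_⟩
  intro z hz hzB
  obtain ⟨w₁, w₂, w₃, hw₁, hw₂, hw₃, hb₁, hb₂, hb₃, hsum⟩ := hχ z hz hzB
  have hw₂H : w₂ ∈ H := by
    have := neg_mem (hΩ₁H _ hw₂)
    rwa [neg_neg] at this
  refine ⟨fun j => base j + vec w₁ w₂ w₃ j, ?_, ?_⟩
  · intro j
    by_cases e1 : j = j1
    · subst e1
      have : c (base j1 + s j1 w₁) = i := hb₁
      simpa [vec] using this
    · by_cases e2 : j = j2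
      · subst e2
        have : c (base j2 + s j2 w₂) = i := hb₂
        simpa [vec, h12.symm] using this
      · by_cases e3 : j = j3
        · subst e3
          have : c (base j3 + s j3 w₃) = i := hb₃
          simpa [vec, h13.symm, h23.symm] using this
        · have := hbase j e1 e2 e3
          simpa [vec, e1, e2, e3] using this
  · have h1 : ∑ j, φ j (base j + vec w₁ w₂ w₃ j) =
        (∑ j, φ j (if j ∈ S then x0 else 0)) + (∑ j, φ j (v0 j)) +
          ∑ j, φ j (vec w₁ w₂ w₃ j) := by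
      simp only [base, map_add, sum_add_distrib]
    have h2 : ∑ j, φ j (if j ∈ S then x0 else 0) = 0 := by
      have e1 : ∀ j, φ j (if j ∈ S then x0 else 0) = if j ∈ S then φ j x0 else 0 := by
        intro j
        split_ifs
        · rfl
        · exact map_zero _
      rw [sum_congr rfl (fun j _ => e1 j), sum_ite_mem, univ_inter]
      have e2 := congrArg (fun f : G →+ G => f x0) hS
      simpa using e2
    rw [h1, h2, hv0, hvecsum _ (hΩ₁H _ hw₁) _ hw₂H _ (hΩ₃H _ hw₃), hsum]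
    simp

/-- Passage to the limit. -/
theorem limit_step {G : Type u} [AddCommGroup G] {r k : ℕ} (H : AddSubgroup G) (η : ℝ)
    (good : Fin r → G → Prop)
    (h : ∀ K : Finset G, (∀ z ∈ K, z ∈ H) → ∃ (i : Fin r) (χ : Fin k → AddChar G Circle),
      ∀ z ∈ K, (∀ l, ‖((χ l z : Circle) : ℂ) - 1‖ < η) → good i z) :
    ∃ (i : Fin r) (χ : Fin k → AddChar G Circle),
      ∀ z ∈ H, (∀ l, ‖((χ l z : Circle) : ℂ) - 1‖ < η) → good i z := by
  classical
  have h' : ∀ K : Finset H, ∃ (p : Fin r × (Fin k → AddChar G Circle)),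
      ∀ z ∈ K, (∀ l, ‖((p.2 l z : Circle) : ℂ) - 1‖ < η) → good p.1 z := by
    intro K
    obtain ⟨i, χ, hi⟩ := h (K.map (Function.Embedding.subtype _)) (by
      intro z hz
      obtain ⟨y, -, rfl⟩ := mem_map.1 hz
      exact y.2)
    refine ⟨(i, χ), fun z hz hzl => hi z (mem_map.2 ⟨z, hz, rfl⟩) hzl⟩
  choose p hp using h'
  let F : Finset H → Fin r × (Fin k → G → Circle) := fun K => ((p K).1, fun l g => (p K).2 l g)
  let 𝒰 : Ultrafilter (Finset H) := Ultrafilter.of Filter.atTop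
  have h𝒰 : (𝒰 : Filter (Finset H)) ≤ Filter.atTop := Ultrafilter.of_le _
  obtain ⟨x, -, hx⟩ := isCompact_univ.ultrafilter_le_nhds (𝒰.map F) (by simp)
  have hx' : Filter.Tendsto F 𝒰 (nhds x) := hx
  have hx1 : Filter.Tendsto (fun K => (p K).1) 𝒰 (nhds x.1) :=
    (continuous_fst.tendsto x).comp hx'
  have hx2 : ∀ l g, Filter.Tendsto (fun K => (p K).2 l g) 𝒰 (nhds (x.2 l g)) := by
    intro l g
    have hc : Continuous (fun y : Fin r × (Fin k → G → Circle) => y.2 l g) := by fun_prop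
    exact (hc.tendsto x).comp hx'
  have hi : ∀ᶠ K in (𝒰 : Filter (Finset H)), (p K).1 = x.1 := by
    rw [nhds_discrete] at hx1
    exact Filter.tendsto_pure.1 hx1
  let χ : Fin k → AddChar G Circle := fun l =>
    { toFun := x.2 l
      map_zero_eq_one' := by
        have h1 := hx2 l 0
        have h2 : (fun K => (p K).2 l 0) = fun _ => (1 : Circle) := by
          funext K
          exact AddChar.map_zero_eq_one _
        rw [h2] at h1
        exact tendsto_nhds_unique h1 tendsto_const_nhds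
      map_add_eq_mul' := by
        intro a b
        have h1 := hx2 l (a + b)
        have h2 : (fun K => (p K).2 l (a + b)) = fun K => (p K).2 l a * (p K).2 l b := by
          funext K
          exact AddChar.map_add_eq_mul _ _ _
        rw [h2] at h1
        exact tendsto_nhds_unique h1 ((hx2 l a).mul (hx2 l b)) }
  have hχ : ∀ l g, χ l g = x.2 l g := fun l g => rfl
  refine ⟨x.1, χ, ?_⟩
  intro z hz hzl
  have hev : ∀ l, ∀ᶠ K in (𝒰 : Filter (Finset H)), ‖(((p K).2 l z : Circle) : ℂ) - 1‖ < η := by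
    intro l
    have h1 : Filter.Tendsto (fun K => ‖(((p K).2 l z : Circle) : ℂ) - 1‖) 𝒰
        (nhds ‖((x.2 l z : Circle) : ℂ) - 1‖) := by
      have hc : Continuous (fun y : Circle => ‖(y : ℂ) - 1‖) := by fun_prop
      exact (hc.tendsto _).comp (hx2 l z)
    exact h1.eventually (gt_mem_nhds (hzl l))
  have hev' : ∀ᶠ K in (𝒰 : Filter (Finset H)), ∀ l, ‖(((p K).2 l z : Circle) : ℂ) - 1‖ < η :=
    Filter.eventually_all.2 hev
  have hmem : ∀ᶠ K in (𝒰 : Filter (Finset H)), (⟨z, hz⟩ : H) ∈ K := by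
    apply h𝒰
    filter_upwards [Filter.eventually_ge_atTop {(⟨z, hz⟩ : H)}] with K hK
    exact hK (mem_singleton_self _)
  obtain ⟨K, hK1, hK2, hK3⟩ := (hi.and (hev'.and hmem)).exists
  have := hp K ⟨z, hz⟩ hK3 hK2
  rwa [hK1] at this

/-- Padding of a Bohr set to larger rank and smaller radius. -/
theorem pad {G : Type u} [AddCommGroup G] {k k' : ℕ} (hk : k ≤ k') {η η' : ℝ} (hη : η' ≤ η)
    (χ : Fin k → AddChar G Circle) :
    ∃ χ' : Fin k' → AddChar G Circle, ∀ g, (∀ l, ‖((χ' l g : Circle) : ℂ) - 1‖ < η') →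
      ∀ l, ‖((χ l g : Circle) : ℂ) - 1‖ < η := by
  refine ⟨fun l => if h : l.1 < k then χ ⟨l.1, h⟩ else 1, ?_⟩
  intro g hg l
  have h1 := hg (Fin.castLE hk l)
  have h2 : (Fin.castLE hk l).1 < k := l.2
  beta_reduce at h1
  rw [dif_pos h2] at h1
  exact lt_of_lt_of_le h1 hη

theorem main_S (d r : ℕ) (hd : 3 ≤ d) (m : Fin d → ℕ) (S : Finset (Fin d)) (hS : S.Nonempty) :
    ∃ (k : ℕ) (η : ℝ), 0 < η ∧
      ∀ (G : Type u) [AddCommGroup G] (φ : Fin d → (G →+ G)),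
        (∀ j, (φ j).range.index = m j ∧ m j ≠ 0) →
        ∑ j ∈ S, φ j = 0 →
        ∀ (c : G → Fin r), ∃ (i : Fin r) (χ : Fin k → AddChar G Circle),
          ∀ z, (∀ l, ‖((χ l z : Circle) : ℂ) - 1‖ < η) →
            ∃ a : Fin d → G, (∀ j, c (a j) = i) ∧ ∑ j, φ j (a j) = z := by
  classical
  obtain ⟨j0, hj0⟩ := hS
  obtain ⟨k, η, hη, hmain⟩ := main_finite.{u} d r hd S j0 hj0
  obtain ⟨B, hB⟩ := chain_exists.{u} d r S j0 m
  refine ⟨k + (B + 1), min η (1 / ((B + 1 : ℕ) : ℝ)), lt_min hη (by positivity), ?_⟩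
  intro G _ φ hφ hsum c
  obtain ⟨U, hU, hchain, H, hH0, hHB, hHs⟩ := hB G φ hφ
  obtain ⟨i, χ, hχ⟩ := limit_step H η (fun i z => ∃ a : Fin d → G, (∀ j, c (a j) = i) ∧
    ∑ j, φ j (a j) = z) (fun K hK => hmain G φ U hU hchain hsum H hHs c K hK)
  obtain ⟨ψ, hψ⟩ := detect H (B + 1) hH0 (hHB.trans (Nat.le_succ B))
  refine ⟨i, Fin.append χ ψ, ?_⟩
  intro z hz
  have hzH : z ∈ H := by
    apply hψ
    intro l
    have h1 := hz (Fin.natAdd k l)
    rw [Fin.append_right] at h1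
    exact lt_of_lt_of_le h1 (min_le_right _ _)
  apply hχ z hzH
  intro l
  have h1 := hz (Fin.castAdd (B + 1) l)
  rw [Fin.append_left] at h1
  exact lt_of_lt_of_le h1 (min_le_left _ _)

theorem main_all (d r : ℕ) (hd : 3 ≤ d) (m : Fin d → ℕ) :
    ∃ (k : ℕ) (η : ℝ), 0 < η ∧
      ∀ (G : Type u) [AddCommGroup G] (φ : Fin d → (G →+ G)),
        (∀ j, (φ j).range.index = m j ∧ m j ≠ 0) →
        (∃ S : Finset (Fin d), S.Nonempty ∧ ∑ j ∈ S, φ j = 0) →
        ∀ (c : G → Fin r), ∃ (i : Fin r) (χ : Fin k → AddChar G Circle),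
          ∀ z, (∀ l, ‖((χ l z : Circle) : ℂ) - 1‖ < η) →
            ∃ a : Fin d → G, (∀ j, c (a j) = i) ∧ ∑ j, φ j (a j) = z := by
  classical
  have h1 : ∀ S : {S : Finset (Fin d) // S.Nonempty}, _ := fun S => main_S.{u} d r hd m S.1 S.2
  choose k η hη hmain using h1
  have hne : (univ : Finset {S : Finset (Fin d) // S.Nonempty}).Nonempty :=
    ⟨⟨{⟨0, by omega⟩}, singleton_nonempty _⟩, mem_univ _⟩
  refine ⟨univ.sup k, univ.inf' hne η, (lt_inf'_iff _).2 fun S _ => hη S, ?_⟩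
  intro G _ φ hφ hS c
  obtain ⟨S, hSne, hsum⟩ := hS
  obtain ⟨i, χ, hχ⟩ := hmain ⟨S, hSne⟩ G φ hφ hsum c
  obtain ⟨χ', hχ'⟩ := pad (le_sup (f := k) (mem_univ (⟨S, hSne⟩ : {S : Finset (Fin d) // S.Nonempty})))
    (inf'_le η (mem_univ (⟨S, hSne⟩ : {S : Finset (Fin d) // S.Nonempty}))) χ
  exact ⟨i, χ', fun z hz => hχ z (hχ' z hz)⟩

end Pool.Agent.Lib.MP_2d55ae_co
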