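import Pool.Agent.Lib.MP_2d55ae_co.System

set_option autoImplicit false

namespace Pool.Agent.Lib.MP_2d55ae_co

open Finset

universe u

/-- Averaging over a large box: if finitely many sets cover an abelian group, then for one of the
sets a positive proportion (bounded below in terms of the number of sets only) of prescribed shifts
of a suitable point lies in it. -/
theorem pigeonhole_shift {P : Type*} [AddCommGroup P] {A Ω : Type*} [Fintype A] [Nonempty A]
    [Fintype Ω] (Good : A → Set P) (hcov : ∀ θ, ∃ a, θ ∈ Good a) (t : A → Ω → P) :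
    ∃ (a : A) (θ : P) (F : Finset Ω), (∀ ω ∈ F, θ + t a ω ∈ Good a) ∧
      Fintype.card Ω ≤ 2 * Fintype.card A * F.card := by
  classical
  set L : ℕ := 2 * Fintype.card A with hL
  have hApos : 0 < Fintype.card A := Fintype.card_pos
  have hLpos : 0 < L := by omega
  let B0 : Finset (A × Ω → ℕ) := Fintype.piFinset (fun _ => range L)
  have hB0 : B0.card = L ^ (Fintype.card (A × Ω)) := by
    simp [B0]
  have hB0pos : 0 < B0.card := by rw [hB0]; positivity
  let th : (A × Ω → ℕ) → P := fun n => ∑ k, n k • t k.1 k.2
  -- pigeonhole on a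
  obtain ⟨a, -, ha⟩ : ∃ a ∈ (univ : Finset A), B0.card ≤
      Fintype.card A * (B0.filter (fun n => th n ∈ Good a)).card := by
    by_contra hcon
    push Not at hcon
    have h1 : B0.card ≤ ∑ a : A, (B0.filter (fun n => th n ∈ Good a)).card := by
      calc B0.card ≤ (univ.biUnion (fun a => B0.filter (fun n => th n ∈ Good a))).card := by
            apply card_le_card
            intro n hn
            obtain ⟨a, ha⟩ := hcov (th n)
            exact mem_biUnion.2 ⟨a, mem_univ _, mem_filter.2 ⟨hn, ha⟩⟩
        _ ≤ _ := card_biUnion_le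
    have h2 : Fintype.card A * ∑ a : A, (B0.filter (fun n => th n ∈ Good a)).card <
        Fintype.card A * B0.card := by
      rw [mul_sum]
      calc ∑ a : A, Fintype.card A * (B0.filter (fun n => th n ∈ Good a)).card
          < ∑ _a : A, B0.card := sum_lt_sum_of_nonempty univ_nonempty hcon
        _ = Fintype.card A * B0.card := by simp
    have h3 := Nat.mul_le_mul_left (Fintype.card A) h1
    omega
  -- count shifts
  have hshift : ∀ ω : Ω, (B0.filter (fun n => th n ∈ Good a)).card ≤
      (B0.filter (fun n => th n + t a ω ∈ Good a)).card +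
        (B0.filter (fun n => n (a, ω) = 0)).card := by
    intro ω
    have h1 : (B0.filter (fun n => th n ∈ Good a)).card ≤
        ((B0.filter (fun n => th n ∈ Good a)).filter (fun n => ¬ n (a, ω) = 0)).card +
        (B0.filter (fun n => n (a, ω) = 0)).card := by
      rw [← card_filter_add_card_filter_not (s := B0.filter (fun n => th n ∈ Good a))
        (fun n => ¬ n (a, ω) = 0)]
      apply Nat.add_le_add_left
      apply card_le_card
      intro n hn
      rw [mem_filter, mem_filter] at hn
      exact mem_filter.2 ⟨hn.1.1, not_not.1 hn.2⟩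
    refine h1.trans (Nat.add_le_add_right ?_ _)
    apply card_le_card_of_injOn (fun n => Function.update n (a, ω) (n (a, ω) - 1))
    · intro n hn
      have hn' := mem_filter.1 (Finset.mem_coe.1 hn)
      obtain ⟨hn1, hn2⟩ := mem_filter.1 hn'.1
      have hn3 : n (a, ω) ≠ 0 := hn'.2
      refine Finset.mem_coe.2 (mem_filter.2 ⟨?_, ?_⟩)
      · rw [Fintype.mem_piFinset] at hn1 ⊢
        intro k
        show Function.update n (a, ω) (n (a, ω) - 1) k ∈ range L
        by_cases hk : k = (a, ω)
        · subst hk
          rw [Function.update_self]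
          have := mem_range.1 (hn1 (a, ω))
          exact mem_range.2 (by omega)
        · rw [Function.update_of_ne hk]
          exact hn1 k
      · have : th (Function.update n (a, ω) (n (a, ω) - 1)) + t a ω = th n := by
          simp only [th]
          rw [← Finset.add_sum_erase _ _ (mem_univ (a, ω)),
            ← Finset.add_sum_erase (univ : Finset (A × Ω)) (fun k => n k • t k.1 k.2)
              (mem_univ (a, ω))]
          rw [Function.update_self]
          have h4 : ∑ k ∈ univ.erase (a, ω), Function.update n (a, ω) (n (a, ω) - 1) k • t k.1 k.2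
              = ∑ k ∈ univ.erase (a, ω), n k • t k.1 k.2 := by
            apply sum_congr rfl
            intro k hk
            rw [Function.update_of_ne (ne_of_mem_erase hk)]
          rw [h4]
          obtain ⟨q, hq⟩ : ∃ q, n (a, ω) = q + 1 := ⟨n (a, ω) - 1, by omega⟩
          rw [hq]
          simp only [Nat.add_sub_cancel, add_smul, one_smul]
          abel
        rw [this]
        exact hn2
    · intro n hn n' hn' h
      have hn3 : n (a, ω) ≠ 0 := (mem_filter.1 (Finset.mem_coe.1 hn)).2
      have hn3' : n' (a, ω) ≠ 0 := (mem_filter.1 (Finset.mem_coe.1 hn')).2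
      funext k
      have hk := congrFun h k
      simp only at hk
      by_cases hk' : k = (a, ω)
      · subst hk'
        rw [Function.update_self, Function.update_self] at hk
        omega
      · rwa [Function.update_of_ne hk', Function.update_of_ne hk'] at hk
  have hzero : ∀ ω : Ω, L * (B0.filter (fun n => n (a, ω) = 0)).card ≤ B0.card := by
    intro ω
    have h1 : (range L ×ˢ (B0.filter (fun n => n (a, ω) = 0))).card ≤ B0.card := by
      apply card_le_card_of_injOn (fun x => Function.update x.2 (a, ω) x.1)
      · rintro ⟨x, n⟩ hx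
        obtain ⟨hx1, hx2⟩ := mem_product.1 (Finset.mem_coe.1 hx)
        obtain ⟨hx3, hx4⟩ := mem_filter.1 hx2
        refine Finset.mem_coe.2 ?_
        rw [Fintype.mem_piFinset] at hx3 ⊢
        intro k
        by_cases hk : k = (a, ω)
        · subst hk
          simp only [Function.update_self]
          exact hx1
        · simp only [Function.update_of_ne hk]
          exact hx3 k
      · rintro ⟨x, n⟩ hx ⟨x', n'⟩ hx' h
        obtain ⟨hx1, hx2⟩ := mem_product.1 (Finset.mem_coe.1 hx)
        obtain ⟨hx3, hx4⟩ := mem_filter.1 hx2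
        obtain ⟨hx1', hx2'⟩ := mem_product.1 (Finset.mem_coe.1 hx')
        obtain ⟨hx3', hx4'⟩ := mem_filter.1 hx2'
        simp only at h hx4 hx4'
        have e1 : x = x' := by
          have := congrFun h (a, ω)
          simpa using this
        have e2 : n = n' := by
          funext k
          by_cases hk : k = (a, ω)
          · subst hk
            rw [hx4, hx4']
          · have := congrFun h k
            rwa [Function.update_of_ne hk, Function.update_of_ne hk] at this
        rw [e1, e2]
    rwa [card_product, card_range] at h1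
  -- average
  by_contra hcon
  push Not at hcon
  have hc2 : ∀ n ∈ B0, 2 * Fintype.card A *
      (univ.filter (fun ω => th n + t a ω ∈ Good a)).card + 1 ≤ Fintype.card Ω := by
    intro n _
    have := hcon a (th n) (univ.filter (fun ω => th n + t a ω ∈ Good a))
      (fun ω hω => (mem_filter.1 hω).2)
    rw [hL] at this
    omega
  have hsum1 : ∑ n ∈ B0, (univ.filter (fun ω => th n + t a ω ∈ Good a)).card =
      ∑ ω : Ω, (B0.filter (fun n => th n + t a ω ∈ Good a)).card := by
    simp only [card_filter]
    rw [sum_comm]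
  have hsum2 : 2 * Fintype.card A * ∑ ω : Ω, (B0.filter (fun n => th n + t a ω ∈ Good a)).card +
      B0.card ≤ Fintype.card Ω * B0.card := by
    rw [← hsum1]
    have h5 := sum_le_sum hc2
    rw [sum_add_distrib, ← mul_sum, sum_const, sum_const, smul_eq_mul, smul_eq_mul, mul_one] at h5
    linarith [Nat.mul_comm (Fintype.card Ω) B0.card]
  have h6 : ∀ ω : Ω, B0.card ≤ 2 * Fintype.card A *
      (B0.filter (fun n => th n + t a ω ∈ Good a)).card := by
    intro ω
    have e1 := hshift ω
    have e2 := hzero ω
    have e3 : 2 * Fintype.card A * (B0.filter (fun n => th n ∈ Good a)).card ≤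
        2 * Fintype.card A * ((B0.filter (fun n => th n + t a ω ∈ Good a)).card +
        (B0.filter (fun n => n (a, ω) = 0)).card) := Nat.mul_le_mul_left _ e1
    rw [mul_add] at e3
    rw [hL] at e2
    nlinarith
  have h7 : Fintype.card Ω * B0.card ≤ 2 * Fintype.card A *
      ∑ ω : Ω, (B0.filter (fun n => th n + t a ω ∈ Good a)).card := by
    rw [mul_sum]
    calc Fintype.card Ω * B0.card = ∑ _ω : Ω, B0.card := by simp
      _ ≤ _ := sum_le_sum (fun ω _ => h6 ω)
  omega

/-- Density interface: a single translate of a finite family of solutions is monochromatic for a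
positive proportion of the family. -/
theorem interfaceA (d r : ℕ) (S : Finset (Fin d)) (j0 : Fin d) (hj0 : j0 ∈ S) :
    ∃ N : ℕ, 0 < N ∧
      ∀ (G : Type u) [AddCommGroup G] (φ : Fin d → (G →+ G)) (U : ℕ → AddSubgroup G),
        Monotone U →
        (∀ l, l < r → ∀ j, j ∉ S → ∀ y ∈ U l, ∃ t ∈ U (l + 1), φ j0 t = φ j y) →
        ∀ (Ω : Type u) [Fintype Ω] (v : Ω → Fin d → G),
          (∀ ω j, v ω j ∈ U 0) → (∀ ω, ∑ j, φ j (v ω j) = 0) →
          ∀ c : G → Fin r, ∃ (i : Fin r) (x0 : G) (v0 : Fin d → G) (F : Finset Ω),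
            ∑ j, φ j (v0 j) = 0 ∧
            (∀ ω ∈ F, ∀ j, c ((if j ∈ S then x0 else 0) + v0 j + v ω j) = i) ∧
            Fintype.card Ω ≤ N * F.card := by
  classical
  obtain ⟨C, D, hC, hD, -, hsys⟩ := exists_system d r S j0 hj0 r
  have := Fintype.ofFinite D
  refine ⟨2 * Fintype.card (D × Fin r) + 1, by omega, ?_⟩
  intro G _ φ U hU hchain Ω _ v hv hvs c
  obtain ⟨P, hP, p, X, V, hV, hcol, hlift, -⟩ := hsys G φ U hU hchain
  have hcov : ∀ θ : P, ∃ a : D × Fin r, θ ∈ (fun a : D × Fin r => {θ : P | ∀ j,
      c ((if j ∈ S then X a.1 θ else 0) + V a.1 j θ) = a.2}) a := by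
    intro θ
    obtain ⟨δ, i, h⟩ := hcol θ c univ (by simp) (fun _ => mem_univ _)
    exact ⟨(δ, i), h⟩
  have : Nonempty (D × Fin r) := ⟨(hcov 0).choose⟩
  have hl : ∀ (a : D × Fin r) (ω : Ω), ∃ θ, X a.1 θ = 0 ∧ (∀ j, V a.1 j θ = v ω j) := by
    intro a ω
    obtain ⟨θ, h1, h2, -⟩ := hlift a.1 (v ω) (hv ω) (hvs ω)
    exact ⟨θ, h1, h2⟩
  choose t ht1 ht2 using hl
  obtain ⟨a, θ, F, hF, hcard⟩ := pigeonhole_shift _ hcov t
  refine ⟨a.2, X a.1 θ, fun j => V a.1 j θ, F, hV a.1 θ, ?_, ?_⟩
  · intro ω hω j
    have h := hF ω hω j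
    rw [map_add, map_add, ht1, ht2, add_zero, ← add_assoc] at h
    exact h
  · calc Fintype.card Ω ≤ 2 * Fintype.card (D × Fin r) * F.card := hcard
      _ ≤ _ := Nat.mul_le_mul_right _ (by omega)

end Pool.Agent.Lib.MP_2d55ae_co
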