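import Mathlib

set_option autoImplicit false

namespace Pool.Agent.Lib.MP_2d55ae_co

open Finset

universe u

/-- Existence of a finite linear system of points and configurations: for `m` colours. The finite
index types depend only on `d, r, S, m`, not on the group. -/
theorem exists_system (d r : ℕ) (S : Finset (Fin d)) (j0 : Fin d) (hj0 : j0 ∈ S) (m : ℕ) :
    ∃ (C D : Type), Finite C ∧ Finite D ∧ Nonempty C ∧
      ∀ (G : Type u) [AddCommGroup G] (φ : Fin d → (G →+ G)) (U : ℕ → AddSubgroup G),
        Monotone U →
        (∀ l, l < m → ∀ j, j ∉ S → ∀ y ∈ U l, ∃ t ∈ U (l + 1), φ j0 t = φ j y) →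
        ∃ (P : Type u) (_ : AddCommGroup P) (p : C → (P →+ G)) (X : D → (P →+ G))
          (V : D → Fin d → (P →+ G)),
          (∀ δ θ, ∑ j, φ j (V δ j θ) = 0) ∧
          (∀ (θ : P) (c : G → Fin r) (T : Finset (Fin r)), T.card ≤ m →
            (∀ κ, c (p κ θ) ∈ T) →
            ∃ δ i, ∀ j, c ((if j ∈ S then X δ θ else 0) + V δ j θ) = i) ∧
          (∀ δ, ∀ v : Fin d → G, (∀ j, v j ∈ U 0) → ∑ j, φ j (v j) = 0 →
            ∃ θ, X δ θ = 0 ∧ (∀ j, V δ j θ = v j) ∧ ∀ κ, p κ θ ∈ U m) ∧
          (∀ κ, ∀ y ∈ U 0, ∃ θ, p κ θ = y ∧ ∀ κ', p κ' θ ∈ U m) := by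
  classical
  induction m with
  | zero =>
    refine ⟨Unit, Empty, inferInstance, inferInstance, inferInstance, ?_⟩
    intro G _ φ U hU _
    refine ⟨G, inferInstance, fun _ => AddMonoidHom.id G, fun x => x.elim, fun x => x.elim,
      fun x => x.elim, ?_, fun x => x.elim, ?_⟩
    · intro θ c T hT hc
      have h := hc ()
      have : T = ∅ := Finset.card_eq_zero.1 (Nat.le_zero.1 hT)
      rw [this] at h
      exact absurd h (Finset.notMem_empty _)
    · intro κ y hy
      exact ⟨y, rfl, fun _ => hy⟩
  | succ m ih =>
    obtain ⟨C, D, hC, hD, hCn, hsys⟩ := ih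
    -- Hales-Jewett alphabet
    let E := {j : Fin d // j ∉ S}
    let S' := {j : Fin d // j ∈ S}
    let A := (E → C) × S'
    obtain ⟨ι, hι, hHJ⟩ := Combinatorics.Line.exists_mono_in_high_dimension A (Fin r)
    refine ⟨(ι → A) ⊕ ({I : Finset ι // I.Nonempty} × E × C),
      ({f : ι → Option A // ∃ s, f s = none} × (E → C)) ⊕ ({I : Finset ι // I.Nonempty} × E × D),
      inferInstance, inferInstance,
      ⟨Sum.inl (fun _ => (fun _ => Classical.choice hCn, ⟨j0, hj0⟩))⟩, ?_⟩
    intro G _ φ U hU hchain
    obtain ⟨P, hP, p, X, V, hV, hcol, hlift, hpt⟩ := hsys G φ U hU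
      (fun l hl => hchain l (by omega))
    -- fibre product
    let P' : AddSubgroup ((E → P) × ((E → C) → Fin d → G)) :=
      { carrier := {q | ∀ κ, ∑ j, φ j (q.2 κ j) = 0 ∧ ∀ j : E, q.2 κ j = p (κ j) (q.1 j)}
        zero_mem' := by
          intro κ
          simp
        add_mem' := by
          intro a b ha hb κ
          obtain ⟨h1, h2⟩ := ha κ
          obtain ⟨h3, h4⟩ := hb κ
          refine ⟨?_, ?_⟩
          · simp only [Prod.snd_add, Pi.add_apply, map_add, Finset.sum_add_distrib, h1, h3,
              add_zero]
          · intro j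
            simp only [Prod.snd_add, Prod.fst_add, Pi.add_apply, map_add, h2 j, h4 j]
        neg_mem' := by
          intro a ha κ
          obtain ⟨h1, h2⟩ := ha κ
          refine ⟨?_, ?_⟩
          · simp only [Prod.snd_neg, Pi.neg_apply, map_neg, Finset.sum_neg_distrib, h1, neg_zero]
          · intro j
            simp only [Prod.snd_neg, Prod.fst_neg, Pi.neg_apply, map_neg, h2 j] }
    have hP' : ∀ q : P', ∀ κ, ∑ j, φ j (q.1.2 κ j) = 0 ∧
        ∀ j : E, q.1.2 κ j = p (κ j) (q.1.1 j) := fun q => q.2
    -- totals
    let tot : Finset ι → ((ι → P') →+ P') := fun I =>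
      AddMonoidHom.mk' (fun u => ∑ s ∈ I, u s) (by
        intro a b
        simp [Finset.sum_add_distrib])
    have htot : ∀ I u, tot I u = ∑ s ∈ I, u s := fun I u => rfl
    let th : E → (P' →+ P) := fun j => AddMonoidHom.mk' (fun q => q.1.1 j) (by
        intro a b; rfl)
    let vv : (E → C) → Fin d → (P' →+ G) := fun κ j => AddMonoidHom.mk' (fun q => q.1.2 κ j) (by
        intro a b; rfl)
    have hth : ∀ j q, th j q = q.1.1 j := fun j q => rfl
    have hvv : ∀ κ j q, vv κ j q = q.1.2 κ j := fun κ j q => rfl
    have hPv : ∀ q : P', ∀ κ, ∑ j, φ j (vv κ j q) = 0 := fun q κ => (hP' q κ).1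
    have hPe : ∀ q : P', ∀ κ, ∀ j : E, vv κ j q = p (κ j) (th j q) := fun q κ j => (hP' q κ).2 j
    -- solving
    have hchain' := hchain m (by omega)
    have hext : ∀ (θ : E → P), (∀ κ j, p κ (θ j) ∈ U m) → ∀ (κ0 : Option (E → C)) (v0 : Fin d → G),
        (∀ j, v0 j ∈ U (m + 1)) → ∑ j, φ j (v0 j) = 0 →
        (∀ κ, κ0 = some κ → ∀ j : E, v0 j = p (κ j) (θ j)) →
        ∃ q : P', (∀ j, th j q = θ j) ∧ (∀ κ, κ0 = some κ → ∀ j, vv κ j q = v0 j) ∧
          ∀ κ j, vv κ j q ∈ U (m + 1) := by
      intro θ hθ κ0 v0 hv0 hv0s hv0e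
      have hex : ∀ κ : E → C, ∃ v : Fin d → G, (∀ j, v j ∈ U (m + 1)) ∧ ∑ j, φ j (v j) = 0 ∧
          ∀ j : E, v j = p (κ j) (θ j) := by
        intro κ
        -- for each j in E choose t_j
        have h1 : ∀ j : E, ∃ t ∈ U (m + 1), φ j0 t = φ j (p (κ j) (θ j)) := fun j =>
          hchain' j j.2 _ (hθ _ _)
        choose t ht1 ht2 using h1
        refine ⟨fun j => if h : j ∈ S then (if j = j0 then - ∑ e : E, t e else 0)
          else p (κ ⟨j, h⟩) (θ ⟨j, h⟩), ?_, ?_, ?_⟩
        · intro j
          by_cases h : j ∈ S
          · simp only [h, dif_pos]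
            split_ifs
            · exact neg_mem (sum_mem fun e _ => ht1 e)
            · exact zero_mem _
          · simp only [h, dif_neg, not_false_iff]
            exact hU (Nat.le_succ m) (hθ _ _)
        · rw [← Finset.sum_filter_add_sum_filter_not univ (fun j => j ∈ S)]
          have e1 : ∑ j ∈ univ.filter (fun j => j ∈ S), φ j
              (if h : j ∈ S then (if j = j0 then - ∑ e : E, t e else 0)
                else p (κ ⟨j, h⟩) (θ ⟨j, h⟩)) = - ∑ e : E, φ j0 (t e) := by
            rw [Finset.sum_eq_single j0]
            · simp [hj0]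
            · intro b hb hb'
              have hbS := (Finset.mem_filter.1 hb).2
              simp [hbS, hb']
            · intro h
              exact absurd (Finset.mem_filter.2 ⟨Finset.mem_univ _, hj0⟩) h
          have e2 : ∑ j ∈ univ.filter (fun j => j ∉ S), φ j
              (if h : j ∈ S then (if j = j0 then - ∑ e : E, t e else 0)
                else p (κ ⟨j, h⟩) (θ ⟨j, h⟩)) = ∑ e : E, φ e (p (κ e) (θ e)) := by
            rw [← Finset.sum_subtype_of_mem (p := fun j => j ∉ S)
              (f := fun j => φ j (if h : j ∈ S then (if j = j0 then - ∑ e : E, t e else 0)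
                else p (κ ⟨j, h⟩) (θ ⟨j, h⟩)))]
            · apply Finset.sum_congr
              · ext x
                have hx := x.2
                simp only [Finset.mem_subtype, Finset.mem_filter, Finset.mem_univ, true_and,
                  iff_true]
                exact hx
              · intro x _
                have hx := x.2
                simp [hx]
            · intro x hx
              exact (Finset.mem_filter.1 hx).2
          rw [e1, e2]
          simp [ht2]
        · intro j
          have := j.2
          simp [this]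
      choose v hv1 hv2 hv3 using hex
      let w : (E → C) → Fin d → G := fun κ => if κ0 = some κ then v0 else v κ
      refine ⟨⟨(θ, w), ?_⟩, fun j => rfl, ?_, ?_⟩
      · intro κ
        show ∑ j, φ j (w κ j) = 0 ∧ ∀ j : E, w κ j = p (κ j) (θ j)
        by_cases h : κ0 = some κ
        · simp only [w, if_pos h]
          exact ⟨hv0s, hv0e κ h⟩
        · simp only [w, if_neg h]
          exact ⟨hv2 κ, hv3 κ⟩
      · intro κ h j
        show w κ j = v0 j
        simp only [w, if_pos h]
      · intro κ j
        show w κ j ∈ U (m + 1)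
        by_cases h : κ0 = some κ
        · simp only [w, if_pos h]
          exact hv0 j
        · simp only [w, if_neg h]
          exact hv1 κ j
    -- a parameter concentrated on one coordinate
    have hsing : ∀ (J : Finset ι) (s0 : ι) (q : P'),
        tot J (fun s => if s = s0 then q else 0) = if s0 ∈ J then q else 0 := by
      intro J s0 q
      rw [htot, Finset.sum_ite_eq' J s0 (fun _ => q)]
    -- new points
    let pnew : (ι → A) ⊕ ({I : Finset ι // I.Nonempty} × E × C) → ((G × (ι → P')) →+ G) :=
      fun κ => match κ with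
        | Sum.inl ω => AddMonoidHom.mk' (fun q => q.1 + ∑ s, vv (ω s).1 (ω s).2 (q.2 s)) (by
            intro a b
            simp only [Prod.fst_add, Prod.snd_add, Pi.add_apply, map_add,
              Finset.sum_add_distrib]
            abel)
        | Sum.inr (I, j, κ) => ((p κ).comp ((th j).comp (tot I.1))).comp
            (AddMonoidHom.snd G (ι → P'))
    let Xnew : ({f : ι → Option A // ∃ s, f s = none} × (E → C)) ⊕
        ({I : Finset ι // I.Nonempty} × E × D) → ((G × (ι → P')) →+ G) :=
      fun δ => match δ with
        | Sum.inl (f, κ) => AddMonoidHom.mk' (fun q => q.1 + ∑ s,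
              (match f.1 s with
                | none => 0
                | some a => vv a.1 a.2 (q.2 s))) (by
            intro a b
            simp only [Prod.fst_add, Prod.snd_add, Pi.add_apply]
            have : ∀ s, (match f.1 s with
                | none => (0 : G)
                | some c => vv c.1 c.2 (a.2 s + b.2 s)) = (match f.1 s with
                | none => 0
                | some c => vv c.1 c.2 (a.2 s)) + (match f.1 s with
                | none => 0
                | some c => vv c.1 c.2 (b.2 s)) := by
              intro s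
              rcases f.1 s with _ | c
              · simp
              · simp
            simp only [this, Finset.sum_add_distrib]
            abel)
        | Sum.inr (I, j, δ) => ((X δ).comp ((th j).comp (tot I.1))).comp
            (AddMonoidHom.snd G (ι → P'))
    let Vnew : ({f : ι → Option A // ∃ s, f s = none} × (E → C)) ⊕
        ({I : Finset ι // I.Nonempty} × E × D) → Fin d → ((G × (ι → P')) →+ G) :=
      fun δ => match δ with
        | Sum.inl (f, κ) => fun j => ((vv κ j).comp (tot (univ.filter (fun s => f.1 s = none)))).comp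
            (AddMonoidHom.snd G (ι → P'))
        | Sum.inr (I, j, δ) => fun j' => ((V δ j').comp ((th j).comp (tot I.1))).comp
            (AddMonoidHom.snd G (ι → P'))
    have hpts : ∀ q : P', (∀ κ j, vv κ j q ∈ U (m + 1)) → (∀ κ j, p κ (th j q) ∈ U m) →
        ∀ (s0 : ι) (y : G), y ∈ U (m + 1) →
        ∀ κ', pnew κ' (y, fun s => if s = s0 then q else 0) ∈ U (m + 1) := by
      intro q hq1 hq2 s0 y hy
      rintro (ω | ⟨I, j, κ⟩)
      · show y + ∑ s, vv (ω s).1 (ω s).2 (if s = s0 then q else 0) ∈ U (m + 1)
        refine add_mem hy (sum_mem fun s _ => ?_)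
        by_cases h : s = s0
        · rw [if_pos h]; exact hq1 _ _
        · rw [if_neg h, map_zero]; exact zero_mem _
      · show p κ (th j (tot I.1 (fun s => if s = s0 then q else 0))) ∈ U (m + 1)
        rw [hsing]
        by_cases h : s0 ∈ I.1
        · rw [if_pos h]; exact hU (Nat.le_succ m) (hq2 κ j)
        · rw [if_neg h, map_zero, map_zero]; exact zero_mem _
    have hone : ∀ θ0 : P, (∀ κ, p κ θ0 ∈ U m) → ∀ j : E, ∃ q : P', th j q = θ0 ∧
        (∀ κ j, vv κ j q ∈ U (m + 1)) ∧ (∀ κ j, p κ (th j q) ∈ U m) := by
      intro θ0 h0 j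
      have hup : ∀ κ j', p κ ((Function.update (0 : E → P) j θ0) j') ∈ U m := by
        intro κ j'
        by_cases h : j' = j
        · subst h
          rw [Function.update_self]
          exact h0 κ
        · rw [Function.update_of_ne h]
          simp only [Pi.zero_apply, map_zero]
          exact zero_mem _
      obtain ⟨q, hq1, _, hq3⟩ := hext (Function.update (0 : E → P) j θ0) hup none 0
        (fun _ => zero_mem _) (by simp) (by intro κ h; cases h)
      refine ⟨q, by rw [hq1, Function.update_self], hq3, fun κ j' => ?_⟩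
      rw [hq1]
      exact hup κ j'
    refine ⟨G × (ι → P'), inferInstance, pnew, Xnew, Vnew, ?_, ?_, ?_, ?_⟩
    · -- solutions
      rintro (⟨f, κ⟩ | ⟨I, j, δ⟩) θ
      · exact hPv (tot (univ.filter (fun s => f.1 s = none)) θ.2) κ
      · exact hV δ (th j (tot I.1 θ.2))
    · -- colouring
      rintro ⟨x, q⟩ c T hT hc
      obtain ⟨l, i, hl⟩ := hHJ (fun ω => c (pnew (Sum.inl ω) (x, q)))
      set I : Finset ι := univ.filter (fun s => l.idxFun s = none) with hI
      have hIne : I.Nonempty := by
        obtain ⟨s, hs⟩ := l.proper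
        exact ⟨s, by simp [hI, hs]⟩
      set qI : P' := tot I q with hqI
      set x' : G := x + ∑ s, (match l.idxFun s with
                | none => (0 : G)
                | some a => vv a.1 a.2 (q s)) with hx'
      have hpt' : ∀ a : A, pnew (Sum.inl (l a)) (x, q) = x' + vv a.1 a.2 qI := by
        intro a
        show x + ∑ s, vv (l a s).1 (l a s).2 (q s) = x' + vv a.1 a.2 qI
        rw [hx', hqI, htot, map_sum, add_assoc]
        congr 1
        rw [hI, Finset.sum_filter, ← Finset.sum_add_distrib]
        refine Finset.sum_congr rfl ?_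
        intro s _
        rcases hs : l.idxFun s with _ | b
        · rw [Combinatorics.Line.apply_none _ _ _ hs]
          simp
        · rw [Combinatorics.Line.apply_some hs]
          simp
      have hcol' : ∀ a : A, c (x' + vv a.1 a.2 qI) = i := by
        intro a
        rw [← hpt' a]
        exact hl a
      by_cases hall : ∀ j : E, ∃ κ : C, c (p κ (th j qI)) = i
      · choose κ hκ using hall
        refine ⟨Sum.inl (⟨l.idxFun, l.proper⟩, κ), i, ?_⟩
        intro j
        show c ((if j ∈ S then x' else 0) + vv κ j qI) = i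
        by_cases hj : j ∈ S
        · rw [if_pos hj]
          exact hcol' (κ, ⟨j, hj⟩)
        · rw [if_neg hj, zero_add, hPe qI κ ⟨j, hj⟩]
          exact hκ ⟨j, hj⟩
      · push Not at hall
        obtain ⟨j, hj⟩ := hall
        have hpts : ∀ κ : C, c (p κ (th j qI)) ∈ T := fun κ =>
          hc (Sum.inr (⟨I, hIne⟩, j, κ))
        by_cases hiT : i ∈ T
        · obtain ⟨δ, i', hδ⟩ := hcol (th j qI) c (T.erase i) (by
            rw [Finset.card_erase_of_mem hiT]; omega)
            (fun κ => Finset.mem_erase.2 ⟨hj κ, hpts κ⟩)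
          exact ⟨Sum.inr (⟨I, hIne⟩, j, δ), i', hδ⟩
        · exfalso
          apply hiT
          have h1 := hc (Sum.inl (l (fun _ => Classical.choice hCn, ⟨j0, hj0⟩)))
          have h2 := hl (fun _ => Classical.choice hCn, ⟨j0, hj0⟩)
          simp only at h2
          rw [h2] at h1
          exact h1
    · -- lifts of configurations
      rintro (⟨f, κ⟩ | ⟨I, j, δ⟩) v hv hvs
      · have h1 : ∀ j : E, ∃ θ, p (κ j) θ = v j ∧ ∀ κ', p κ' θ ∈ U m := fun j =>
          hpt (κ j) (v j) (hv j)
        choose θ hθ1 hθ2 using h1
        obtain ⟨q, hq1, hq2, hq3⟩ := hext θ (fun κ j => hθ2 j κ) (some κ) v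
          (fun j => hU (Nat.zero_le _) (hv j)) hvs (by
            intro κ' hκ' j
            rw [← Option.some.inj hκ']
            exact (hθ1 j).symm)
        obtain ⟨s0, hs0⟩ := f.2
        refine ⟨(0, fun s => if s = s0 then q else 0), ?_, ?_, ?_⟩
        · show (0 : G) + ∑ s, (match f.1 s with
                | none => (0 : G)
                | some a => vv a.1 a.2 (if s = s0 then q else 0)) = 0
          rw [zero_add]
          apply Finset.sum_eq_zero
          intro s _
          rcases hs : f.1 s with _ | a
          · rfl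
          · have hne : s ≠ s0 := by
              rintro rfl
              rw [hs0] at hs
              cases hs
            simp only [if_neg hne, map_zero]
        · intro j
          show vv κ j (tot (univ.filter (fun s => f.1 s = none))
            (fun s => if s = s0 then q else 0)) = v j
          rw [hsing, if_pos (by simp [hs0])]
          exact hq2 κ rfl j
        · exact hpts q hq3 (fun κ j => by rw [hq1 j]; exact hθ2 j κ) s0 0 (zero_mem _)
      · obtain ⟨θ0, h1, h2, h3⟩ := hlift δ v hv hvs
        obtain ⟨q, hq1, hq3, hq4⟩ := hone θ0 h3 j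
        obtain ⟨s0, hs0⟩ := I.2
        refine ⟨(0, fun s => if s = s0 then q else 0), ?_, ?_, ?_⟩
        · show X δ (th j (tot I.1 (fun s => if s = s0 then q else 0))) = 0
          rw [hsing, if_pos hs0, hq1, h1]
        · intro j'
          show V δ j' (th j (tot I.1 (fun s => if s = s0 then q else 0))) = v j'
          rw [hsing, if_pos hs0, hq1, h2]
        · exact hpts q hq3 hq4 s0 0 (zero_mem _)
    · -- lifts of points
      rintro (ω | ⟨I, j, κ⟩) y hy
      · refine ⟨(y, 0), ?_, ?_⟩
        · show y + ∑ s, vv (ω s).1 (ω s).2 0 = y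
          simp
        · rintro (ω' | ⟨I', j', κ'⟩)
          · show y + ∑ s, vv (ω' s).1 (ω' s).2 0 ∈ U (m + 1)
            simp only [map_zero, Finset.sum_const_zero, add_zero]
            exact hU (Nat.zero_le _) hy
          · show p κ' (th j' (tot I'.1 0)) ∈ U (m + 1)
            simp only [map_zero]
            exact zero_mem _
      · obtain ⟨θ0, h1, h3⟩ := hpt κ y hy
        obtain ⟨q, hq1, hq3, hq4⟩ := hone θ0 h3 j
        obtain ⟨s0, hs0⟩ := I.2
        refine ⟨(0, fun s => if s = s0 then q else 0), ?_, ?_⟩
        · show p κ (th j (tot I.1 (fun s => if s = s0 then q else 0))) = y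
          rw [hsing, if_pos hs0, hq1, h1]
        · exact hpts q hq3 hq4 s0 0 (zero_mem _)

end Pool.Agent.Lib.MP_2d55ae_co
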